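import Mathlib

/-!
Definitions: random graphs as points of the cube.
-/

open Finset

namespace Pool.Agent.V8H97.AA

/-- the pairs of vertices -/
abbrev E (n : ℕ) : Type := {e : Sym2 (Fin n) // ¬ e.IsDiag}

/-- the graph of a point of the cube -/
def gr {n : ℕ} (ω : E n → Bool) : SimpleGraph (Fin n) where
  Adj i j := ∃ h : ¬ (s(i, j)).IsDiag, ω ⟨s(i, j), h⟩ = true
  symm := ⟨by
    rintro i j ⟨h, h'⟩
    have e : s(j, i) = s(i, j) := Sym2.eq_swap
    refine ⟨by rw [e]; exact h, ?_⟩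
    have : (⟨s(j, i), by rw [e]; exact h⟩ : E n) = ⟨s(i, j), h⟩ := Subtype.ext e
    rw [this]
    exact h'⟩
  loopless := ⟨by
    rintro i ⟨h, -⟩
    exact h (by simp)⟩

/-- the pairs inside `S` -/
def eds {n : ℕ} (S : Finset (Fin n)) : Finset (E n) := univ.filter fun e => ∀ v ∈ e.1, v ∈ S

/-- typical graphs: every set of `m` vertices contains a clique and an independent set of size `k`,
and no set of `s` vertices is a clique or independent -/
def Typ {n : ℕ} (k m s : ℕ) (H : SimpleGraph (Fin n)) : Prop :=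
  (∀ U : Finset (Fin n), U.card = m →
    (∃ S ⊆ U, S.card = k ∧ ∀ u ∈ S, ∀ v ∈ S, u ≠ v → H.Adj u v) ∧
    (∃ S ⊆ U, S.card = k ∧ ∀ u ∈ S, ∀ v ∈ S, u ≠ v → ¬ H.Adj u v)) ∧
  (∀ S : Finset (Fin n), S.card = s →
    ¬ (∀ u ∈ S, ∀ v ∈ S, u ≠ v → H.Adj u v) ∧ ¬ (∀ u ∈ S, ∀ v ∈ S, u ≠ v → ¬ H.Adj u v))

end Pool.Agent.V8H97.AA
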