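import Mathlib
import Pool.Agent.V8H97.CRG.Half
import Pool.Agent.V8H97.AA.A0

/-!
Typical graphs have a maximiser of the edit distance function near 1/2.
-/

open Finset
open Pool.Agent.V8H97.CRG Pool.Agent.V8H97.CRG.Half

namespace Pool.Agent.V8H97.AA

/-- greedy partition into homogeneous sets of prescribed types -/
lemma partition {n : ℕ} (H : SimpleGraph (Fin n)) (k m : ℕ)
    (hT : ∀ U : Finset (Fin n), U.card = m →
      (∃ S ⊆ U, S.card = k ∧ ∀ u ∈ S, ∀ v ∈ S, u ≠ v → H.Adj u v) ∧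
      (∃ S ⊆ U, S.card = k ∧ ∀ u ∈ S, ∀ v ∈ S, u ≠ v → ¬ H.Adj u v))
    {V : Type} [DecidableEq V] [Nonempty V] (vb : V → Bool) :
    ∀ (a : ℕ) (R : Finset (Fin n)) (I : Finset V), R.card ≤ k * a + m → a + m ≤ I.card →
      ∃ φ : Fin n → V, (∀ u ∈ R, φ u ∈ I) ∧ ∀ u ∈ R, ∀ v ∈ R, u ≠ v → φ u = φ v →
        (H.Adj u v → vb (φ u) = true) ∧ (¬ H.Adj u v → vb (φ u) = false) := by
  classical
  have base : ∀ (R : Finset (Fin n)) (I : Finset V), R.card ≤ m → m ≤ I.card →
      ∃ φ : Fin n → V, (∀ u ∈ R, φ u ∈ I) ∧ ∀ u ∈ R, ∀ v ∈ R, u ≠ v → φ u = φ v →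
        (H.Adj u v → vb (φ u) = true) ∧ (¬ H.Adj u v → vb (φ u) = false) := by
    intro R I hR hI
    obtain ⟨I', hI', hc⟩ := exists_subset_card_eq (hR.trans hI)
    let e := R.equivOfCardEq hc.symm
    refine ⟨fun u => if h : u ∈ R then (e ⟨u, h⟩).1 else Classical.arbitrary V, ?_, ?_⟩
    · intro u hu
      simp only [hu, dif_pos]
      exact hI' (e ⟨u, hu⟩).2
    · intro u hu v hv huv h
      simp only [hu, hv, dif_pos] at h
      have := e.injective (Subtype.ext h)
      exact absurd (congrArg Subtype.val this) huv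
  intro a
  induction a with
  | zero =>
    intro R I hR hI
    exact base R I (by omega) (by omega)
  | succ a ih =>
    intro R I hR hI
    by_cases hRm : R.card ≤ m
    · exact base R I hRm (by omega)
    push Not at hRm
    obtain ⟨U, hUR, hUm⟩ := exists_subset_card_eq hRm.le
    obtain ⟨i, hi⟩ : I.Nonempty := by rw [← Finset.card_pos]; omega
    obtain ⟨S, hSU, hSk, hS⟩ : ∃ S ⊆ U, S.card = k ∧ ∀ u ∈ S, ∀ v ∈ S, u ≠ v →
        (H.Adj u v → vb i = true) ∧ (¬ H.Adj u v → vb i = false) := by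
      obtain ⟨⟨S1, h1, h2, h3⟩, ⟨S2, g1, g2, g3⟩⟩ := hT U hUm
      cases hb : vb i with
      | true => exact ⟨S1, h1, h2, fun u hu v hv huv => ⟨fun _ => rfl, fun h => absurd (h3 u hu v hv huv) h⟩⟩
      | false => exact ⟨S2, g1, g2, fun u hu v hv huv => ⟨fun h => absurd h (g3 u hu v hv huv), fun _ => rfl⟩⟩
    have hSR : S ⊆ R := hSU.trans hUR
    obtain ⟨φ, hφ1, hφ2⟩ := ih (R \ S) (I.erase i)
      (by
        rw [card_sdiff_of_subset hSR, hSk]
        have : k * (a + 1) = k * a + k := by ring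
        omega)
      (by rw [card_erase_of_mem hi]; omega)
    refine ⟨fun u => if u ∈ S then i else φ u, ?_, ?_⟩
    · intro u hu
      by_cases h : u ∈ S
      · simp only [h, if_true]; exact hi
      · simp only [h, if_false]
        exact (mem_erase.1 (hφ1 u (mem_sdiff.2 ⟨hu, h⟩))).2
    · intro u hu v hv huv h
      by_cases h1 : u ∈ S <;> by_cases h2 : v ∈ S
      · simp only [h1, if_true]
        exact hS u h1 v h2 huv
      · simp only [h1, h2, if_true, if_false] at h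
        exact absurd h.symm (mem_erase.1 (hφ1 v (mem_sdiff.2 ⟨hv, h2⟩))).1
      · simp only [h1, h2, if_true, if_false] at h
        exact absurd h (mem_erase.1 (hφ1 u (mem_sdiff.2 ⟨hu, h1⟩))).1
      · simp only [h1, h2, if_false] at h ⊢
        exact hφ2 u (mem_sdiff.2 ⟨hu, h1⟩) v (mem_sdiff.2 ⟨hv, h2⟩) huv h

/-- gray graph with `w` vertices of one colour -/
lemma gval_mono (w : ℕ) (hw : 0 < w) (b : Bool) (p : ℝ) (h0 : 0 ≤ p) (h1 : p ≤ 1) :
    gval w (fun _ => b) (fun _ _ => 1) p ≤ (if b then 1 - p else p) / w := by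
  have hw' : (0 : ℝ) < w := by exact_mod_cast hw
  have hs : Smp (fun _ : Fin w => (1 : ℝ) / w) := by
    refine ⟨fun _ => by positivity, ?_⟩
    rw [Finset.sum_const, Finset.card_univ, Fintype.card_fin, nsmul_eq_mul]
    field_simp
  refine (gval_le w _ _ p h0 h1 _ hs).trans (le_of_eq ?_)
  unfold qf mat
  have : ∀ i : Fin w, ∑ j : Fin w, (1 : ℝ) / w * (1 / w) *
      (if i = j then (if b then 1 - p else p) else (if (1 : Fin 3) = 0 then p else
        if (1 : Fin 3) = 2 then 1 - p else 0)) = 1 / w * (1 / w) * (if b then 1 - p else p) := by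
    intro i
    rw [Finset.sum_eq_single i]
    · rw [if_pos rfl]
    · intro j _ hj
      rw [if_neg (fun e => hj e.symm), if_neg (by decide), if_neg (by decide), mul_zero]
    · intro h; exact absurd (mem_univ i) h
  rw [Finset.sum_congr rfl fun i _ => this i, Finset.sum_const, Finset.card_univ,
    Fintype.card_fin, nsmul_eq_mul]
  field_simp

/-- no homomorphism to few vertices of one colour -/
lemma no_hom {n : ℕ} (H : SimpleGraph (Fin n)) (s w : ℕ) (hs : 0 < s) (hws : w * (s - 1) < n) (b : Bool)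
    (hT : ∀ S : Finset (Fin n), S.card = s → ¬ (∀ u ∈ S, ∀ v ∈ S, u ≠ v → H.Adj u v) ∧
      ¬ (∀ u ∈ S, ∀ v ∈ S, u ≠ v → ¬ H.Adj u v)) :
    ¬ CHom H w (fun _ => b) (fun _ _ => 1) := by
  classical
  rintro ⟨φ, hφ⟩
  obtain ⟨c, -, hc⟩ := Finset.exists_lt_card_fiber_of_mul_lt_card_of_maps_to
    (s := (univ : Finset (Fin n))) (t := (univ : Finset (Fin w))) (f := φ) (n := s - 1)
    (fun _ _ => mem_univ _) (by simpa using hws)
  obtain ⟨S, hS, hSc⟩ := exists_subset_card_eq (show s ≤ _ by omega : s ≤ (univ.filter fun x => φ x = c).card)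
  have hsame : ∀ u ∈ S, φ u = c := fun u hu => (mem_filter.1 (hS hu)).2
  obtain ⟨h1, h2⟩ := hT S hSc
  cases b with
  | true =>
    apply h1
    intro u hu v hv huv
    by_contra h
    have h3 : true = false := ((hφ u v huv).1 ((hsame u hu).trans (hsame v hv).symm)).2 h
    exact absurd h3 (by decide)
  | false =>
    apply h2
    intro u hu v hv huv h
    have h3 : false = true := ((hφ u v huv).1 ((hsame u hu).trans (hsame v hv).symm)).1 h
    exact absurd h3 (by decide)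

/-- lower bound at `1/2` -/
lemma half_low {n : ℕ} (H : SimpleGraph (Fin n)) (k m N₀ : ℕ) (hN₀ : 0 < N₀) (a : ℕ)
    (hna : n ≤ k * a + m) (haN : a + m ≤ N₀)
    (hT : ∀ U : Finset (Fin n), U.card = m →
      (∃ S ⊆ U, S.card = k ∧ ∀ u ∈ S, ∀ v ∈ S, u ≠ v → H.Adj u v) ∧
      (∃ S ⊆ U, S.card = k ∧ ∀ u ∈ S, ∀ v ∈ S, u ≠ v → ¬ H.Adj u v))
    (k' : ℕ) (hk' : 0 < k') (vb : Fin k' → Bool) (ec : Fin k' → Fin k' → Fin 3)
    (hec : ∀ i j, ec i j = ec j i) (hnot : ¬ CHom H k' vb ec) :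
    1 / (2 * (N₀ : ℝ)) ≤ gval k' vb ec (1 / 2) := by
  classical
  haveI : Nonempty (Fin k') := ⟨⟨0, hk'⟩⟩
  obtain ⟨x, hx, hmin, h2, -⟩ := exists_core (mat vb ec (1 / 2)) (mat_symm vb ec hec (1 / 2))
  obtain ⟨S, hS⟩ : ∃ S : Finset (Fin k'), S = univ.filter fun i => x i ≠ 0 := ⟨_, rfl⟩
  have hSm : ∀ i, i ∈ S ↔ x i ≠ 0 := by intro i; rw [hS, mem_filter]; simp
  have hd : ∀ i, mat vb ec (1 / 2) i i = 1 / 2 := by
    intro i
    unfold mat
    rw [if_pos rfl]
    split_ifs <;> norm_num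
  have hgray : ∀ i ∈ S, ∀ j ∈ S, i ≠ j → ec i j = 1 := by
    intro i hi j hj hij
    have h := pair_ineq (mat vb ec (1 / 2)) (mat_symm vb ec hec (1 / 2)) x h2 i j hij
      ((hSm i).1 hi) ((hSm j).1 hj)
    rw [hd, hd] at h
    have : ∀ c : Fin 3, c = 0 ∨ c = 1 ∨ c = 2 := by decide
    rcases this (ec i j) with h3 | h3 | h3
    · unfold mat at h
      rw [if_neg hij, h3, if_pos rfl] at h
      norm_num at h
    · exact h3
    · unfold mat at h
      rw [if_neg hij, h3, if_neg (by decide), if_pos rfl] at h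
      norm_num at h
  have hcard : S.card < N₀ := by
    by_contra hge
    push Not at hge
    obtain ⟨φ, hφ1, hφ2⟩ := partition H k m hT vb a univ S (by simpa using hna) (by omega)
    apply hnot
    refine ⟨φ, fun u v huv => ⟨fun h => hφ2 u (mem_univ _) v (mem_univ _) huv h, fun h => ?_⟩⟩
    rw [hgray _ (hφ1 u (mem_univ _)) _ (hφ1 v (mem_univ _)) h]
    exact ⟨fun _ => by decide, fun _ => by decide⟩
  have hq : qf (mat vb ec (1 / 2)) x = 1 / 2 * ∑ i ∈ S, x i ^ 2 := by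
    unfold qf
    have : ∀ i, ∑ j, x i * x j * mat vb ec (1 / 2) i j = if i ∈ S then 1 / 2 * x i ^ 2 else 0 := by
      intro i
      by_cases hi : i ∈ S
      · rw [if_pos hi, Finset.sum_eq_single i]
        · rw [hd]; ring
        · intro j _ hji
          by_cases hj : j ∈ S
          · have : mat vb ec (1 / 2) i j = 0 := by
              unfold mat
              rw [if_neg (fun e => hji e.symm), hgray i hi j hj (fun e => hji e.symm),
                if_neg (by decide), if_neg (by decide)]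
            rw [this, mul_zero]
          · have : x j = 0 := by
              by_contra h; exact hj ((hSm j).2 h)
            rw [this]; ring
        · intro h; exact absurd (mem_univ i) h
      · have : x i = 0 := by
          by_contra h; exact hi ((hSm i).2 h)
        rw [if_neg hi]
        refine Finset.sum_eq_zero fun j _ => ?_
        rw [this]; ring
    simp only [this]
    rw [Finset.sum_ite_mem, Finset.univ_inter, Finset.mul_sum]
  have hsum : ∑ i ∈ S, x i = 1 := by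
    rw [← hx.2]
    refine Finset.sum_subset (subset_univ S) fun i _ hi => ?_
    by_contra h; exact hi ((hSm i).2 h)
  have hcs : (∑ i ∈ S, x i) ^ 2 ≤ S.card * ∑ i ∈ S, x i ^ 2 := sq_sum_le_card_mul_sum_sq
  rw [hsum] at hcs
  have hN : (0 : ℝ) < N₀ := by exact_mod_cast hN₀
  have hcN : (S.card : ℝ) ≤ N₀ := by exact_mod_cast hcard.le
  have hs0 : 0 ≤ ∑ i ∈ S, x i ^ 2 := Finset.sum_nonneg fun i _ => sq_nonneg _
  refine le_gval k' hk' vb ec (1 / 2) _ fun z hz => ?_
  refine le_trans ?_ (hmin z hz)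
  rw [hq, div_le_iff₀ (by positivity)]
  have : (S.card : ℝ) * ∑ i ∈ S, x i ^ 2 ≤ N₀ * ∑ i ∈ S, x i ^ 2 :=
    mul_le_mul_of_nonneg_right hcN hs0
  nlinarith

/-- the edit distance function of a typical graph has a maximiser near `1/2` -/
lemma typ_max {n : ℕ} (H : SimpleGraph (Fin n)) (k m s N₀ w : ℕ) (hs : 0 < s) (hw : 0 < w)
    (hws : w * (s - 1) < n) (hN₀ : 0 < N₀) (a : ℕ) (hna : n ≤ k * a + m) (haN : a + m ≤ N₀)
    (hNw : 52 * N₀ < 100 * w) (hT : Typ k m s H) :
    ∃ p : ℝ, 1 / 4 + 1 / 100 ≤ p ∧ p ≤ 3 / 4 - 1 / 100 ∧ ∀ q ∈ Set.Icc (0 : ℝ) 1, ed H q ≤ ed H p := by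
  have hw' : (0 : ℝ) < w := by exact_mod_cast hw
  have hN' : (0 : ℝ) < N₀ := by exact_mod_cast hN₀
  have hup : ∀ (b : Bool) (p : ℝ), 0 ≤ p → p ≤ 1 → ed H p ≤ (if b then 1 - p else p) / w := by
    intro b p h0 h1
    exact (ed_le H p h0 h1 w (fun _ => b) (fun _ _ => 1) hw (fun _ _ => rfl)
      (no_hom H s w hs hws b hT.2)).trans (gval_mono w hw b p h0 h1)
  have hlow : 1 / (2 * (N₀ : ℝ)) ≤ ed H (1 / 2) := by
    refine le_csInf ⟨_, w, fun _ => true, fun _ _ => 1, hw, fun _ _ => rfl,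
      no_hom H s w hs hws true hT.2, rfl⟩ ?_
    rintro e ⟨k', vb, ec, hk', hec, hnot, rfl⟩
    exact half_low H k m N₀ hN₀ a hna haN hT.1 k' hk' vb ec hec hnot
  have hgap : (26 / 100 : ℝ) / w < 1 / (2 * (N₀ : ℝ)) := by
    rw [div_lt_div_iff₀ hw' (by positivity)]
    have : (52 * N₀ : ℝ) < 100 * w := by exact_mod_cast hNw
    linarith
  obtain ⟨N, hN⟩ := one n (1 / 100) (by norm_num)
  have hcont : ContinuousOn (edB H N) (Set.Icc (1 / 4 + 1 / 100 : ℝ) (3 / 4 - 1 / 100)) := by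
    have hconc : ConcaveOn ℝ (Set.Ioo (0 : ℝ) 1) (edB H N) := by
      refine ⟨convex_Ioo 0 1, ?_⟩
      intro x hx y hy α β hα hβ hαβ
      have h := concave H N x y β ⟨hx.1.le, hx.2.le⟩ ⟨hy.1.le, hy.2.le⟩ hβ (by linarith)
      have e : (1 - β) = α := by linarith
      rw [e] at h
      simpa only [smul_eq_mul] using h
    refine (hconc.continuousOn isOpen_Ioo).mono ?_
    intro x hx
    exact ⟨by linarith [hx.1], by linarith [hx.2]⟩
  obtain ⟨p, hp, hpmax⟩ := isCompact_Icc.exists_isMaxOn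
    (⟨1 / 2, by norm_num, by norm_num⟩ : (Set.Icc (1 / 4 + 1 / 100 : ℝ) (3 / 4 - 1 / 100)).Nonempty)
    hcont
  have heq : ∀ q ∈ Set.Icc (1 / 4 + 1 / 100 : ℝ) (3 / 4 - 1 / 100), edB H N q = ed H q :=
    fun q hq => hN N le_rfl H q hq.1 hq.2
  have hmax : ∀ q ∈ Set.Icc (1 / 4 + 1 / 100 : ℝ) (3 / 4 - 1 / 100), ed H q ≤ ed H p := by
    intro q hq
    rw [← heq q hq, ← heq p hp]
    exact hpmax hq
  have hhalf : ed H (1 / 2) ≤ ed H p := hmax (1 / 2) ⟨by norm_num, by norm_num⟩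
  refine ⟨p, hp.1, hp.2, fun q hq => ?_⟩
  by_cases h1 : q < 1 / 4 + 1 / 100
  · have h2 := hup false q hq.1 hq.2
    simp only [Bool.false_eq_true, if_false] at h2
    have h3 : q / w ≤ (26 / 100 : ℝ) / w := by
      apply div_le_div_of_nonneg_right _ hw'.le
      linarith
    linarith
  by_cases h4 : 3 / 4 - 1 / 100 < q
  · have h2 := hup true q hq.1 hq.2
    simp only [if_true] at h2
    have h3 : (1 - q) / w ≤ (26 / 100 : ℝ) / w := by
      apply div_le_div_of_nonneg_right _ hw'.le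
      linarith
    linarith
  push Not at h1 h4
  exact hmax q ⟨h1, h4⟩

end Pool.Agent.V8H97.AA
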