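import Pool.Agent.V8H97.AA.A0

/-!
McDiarmid inequality on the cube.
-/

set_option autoImplicit false

open Finset

namespace Pool.Agent.V8H97.AA

private theorem mcd_one {α : Type} [Fintype α] [Nonempty α] (X : α → ℝ) (L : ℝ) (hL : 0 < L)
    (h0 : ∑ v, X v = 0) (h : ∀ v v', |X v - X v'| ≤ L) (s : ℝ) :
    ∑ v, Real.exp (s * X v) ≤ (Fintype.card α : ℝ) * Real.exp (s ^ 2 * L ^ 2 / 2) := by
  have hc : 0 < (Fintype.card α : ℝ) := by exact_mod_cast Fintype.card_pos
  have hX : ∀ v, |X v| ≤ L := by
    intro v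
    have h1 : (Fintype.card α : ℝ) * X v = ∑ v', (X v - X v') := by
      rw [Finset.sum_sub_distrib, h0, Finset.sum_const, Finset.card_univ, nsmul_eq_mul, sub_zero]
    have h2 : |(Fintype.card α : ℝ) * X v| ≤ (Fintype.card α : ℝ) * L := by
      rw [h1]
      refine (Finset.abs_sum_le_sum_abs _ _).trans ?_
      refine (Finset.sum_le_sum fun v' _ => h v v').trans (le_of_eq ?_)
      rw [Finset.sum_const, Finset.card_univ, nsmul_eq_mul]
    rw [abs_mul, abs_of_pos hc] at h2
    exact le_of_mul_le_mul_left h2 hc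
  have hpt : ∀ v, Real.exp (s * X v) ≤ (L + X v) / (2 * L) * Real.exp (s * L) +
      (L - X v) / (2 * L) * Real.exp (-(s * L)) := by
    intro v
    have h1 := abs_le.mp (hX v)
    have ha : 0 ≤ (L + X v) / (2 * L) := div_nonneg (by linarith) (by linarith)
    have hb : 0 ≤ (L - X v) / (2 * L) := div_nonneg (by linarith) (by linarith)
    have hab : (L + X v) / (2 * L) + (L - X v) / (2 * L) = 1 := by
      field_simp
      ring
    have h2 := convexOn_exp.2 (Set.mem_univ (s * L)) (Set.mem_univ (-(s * L))) ha hb hab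
    simp only [smul_eq_mul] at h2
    have h3 : (L + X v) / (2 * L) * (s * L) + (L - X v) / (2 * L) * (-(s * L)) = s * X v := by
      field_simp
      ring
    rw [h3] at h2
    exact h2
  calc ∑ v, Real.exp (s * X v) ≤ ∑ v, ((L + X v) / (2 * L) * Real.exp (s * L) +
      (L - X v) / (2 * L) * Real.exp (-(s * L))) := Finset.sum_le_sum fun v _ => hpt v
    _ = ∑ v, ((Real.exp (s * L) + Real.exp (-(s * L))) / 2 +
        (Real.exp (s * L) - Real.exp (-(s * L))) / (2 * L) * X v) := by
        apply Finset.sum_congr rfl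
        intro v _
        field_simp
        ring
    _ = (Fintype.card α : ℝ) * Real.cosh (s * L) := by
        rw [Finset.sum_add_distrib, ← Finset.mul_sum, h0, mul_zero, add_zero, Finset.sum_const,
          Finset.card_univ, nsmul_eq_mul, Real.cosh_eq]
    _ ≤ (Fintype.card α : ℝ) * Real.exp (s ^ 2 * L ^ 2 / 2) := by
        apply mul_le_mul_of_nonneg_left _ hc.le
        refine (Real.cosh_le_exp_half_sq _).trans (le_of_eq ?_)
        congr 1
        ring

private theorem mcd_fin {α : Type} [Fintype α] [Nonempty α] (L : ℝ) (hL : 0 < L) (s : ℝ) :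
    ∀ (n : ℕ) (f : (Fin n → α) → ℝ), (∀ w i v, |f (Function.update w i v) - f w| ≤ L) →
      ∑ w, Real.exp (s * (f w - (∑ w', f w') / (Fintype.card α : ℝ) ^ n)) ≤
        (Fintype.card α : ℝ) ^ n * Real.exp (s ^ 2 * (n : ℝ) * L ^ 2 / 2) := by
  intro n
  have hc : 0 < (Fintype.card α : ℝ) := by exact_mod_cast Fintype.card_pos
  induction n with
  | zero =>
    intro f _
    simp
  | succ n ih =>
    intro f hf
    set c : ℝ := (Fintype.card α : ℝ) with hcdef
    let g : (Fin n → α) → ℝ := fun w => (∑ a, f (Fin.cons a w)) / c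
    have hsum : ∀ F : (Fin (n + 1) → α) → ℝ, ∑ w, F w = ∑ w : Fin n → α, ∑ a, F (Fin.cons a w) := by
      intro F
      rw [← (Fin.consEquiv (fun _ : Fin (n + 1) => α)).sum_comp, Fintype.sum_prod_type,
        Finset.sum_comm]
      rfl
    have hg : (∑ w', f w') / c ^ (n + 1) = (∑ w', g w') / c ^ n := by
      rw [hsum f]
      simp only [g]
      rw [← Finset.sum_div, pow_succ, div_div, mul_comm]
    have hgd : ∀ w i v, |g (Function.update w i v) - g w| ≤ L := by
      intro w i v
      simp only [g]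
      rw [← sub_div, ← Finset.sum_sub_distrib, abs_div, abs_of_pos hc, div_le_iff₀ hc]
      refine (Finset.abs_sum_le_sum_abs _ _).trans ?_
      calc ∑ a, |f (Fin.cons a (Function.update w i v)) - f (Fin.cons a w)|
          ≤ ∑ _a : α, L := by
            apply Finset.sum_le_sum
            intro a _
            rw [Fin.cons_update]
            exact hf _ _ _
        _ = L * c := by
            rw [Finset.sum_const, Finset.card_univ, nsmul_eq_mul, hcdef]
            ring
    have hone : ∀ w : Fin n → α, ∑ a, Real.exp (s * (f (Fin.cons a w) - g w)) ≤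
        c * Real.exp (s ^ 2 * L ^ 2 / 2) := by
      intro w
      apply mcd_one (fun a => f (Fin.cons a w) - g w) L hL
      · rw [Finset.sum_sub_distrib, Finset.sum_const, Finset.card_univ, nsmul_eq_mul]
        simp only [g]
        rw [← hcdef]
        field_simp
        ring
      · intro v v'
        have h1 := hf (Fin.cons v' w) 0 v
        rw [Fin.update_cons_zero] at h1
        have h2 : f (Fin.cons v w) - g w - (f (Fin.cons v' w) - g w) =
          f (Fin.cons v w) - f (Fin.cons v' w) := by ring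
        rw [h2]
        exact h1
    rw [hsum, hg]
    calc ∑ w : Fin n → α, ∑ a, Real.exp (s * (f (Fin.cons a w) - (∑ w', g w') / c ^ n))
        = ∑ w : Fin n → α, Real.exp (s * (g w - (∑ w', g w') / c ^ n)) *
            ∑ a, Real.exp (s * (f (Fin.cons a w) - g w)) := by
          apply Finset.sum_congr rfl
          intro w _
          rw [Finset.mul_sum]
          apply Finset.sum_congr rfl
          intro a _
          rw [← Real.exp_add]
          congr 1
          ring
      _ ≤ ∑ w : Fin n → α, Real.exp (s * (g w - (∑ w', g w') / c ^ n)) *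
            (c * Real.exp (s ^ 2 * L ^ 2 / 2)) :=
          Finset.sum_le_sum fun w _ => mul_le_mul_of_nonneg_left (hone w) (Real.exp_pos _).le
      _ = (∑ w : Fin n → α, Real.exp (s * (g w - (∑ w', g w') / c ^ n))) *
            (c * Real.exp (s ^ 2 * L ^ 2 / 2)) := by rw [Finset.sum_mul]
      _ ≤ (c ^ n * Real.exp (s ^ 2 * (n : ℝ) * L ^ 2 / 2)) *
            (c * Real.exp (s ^ 2 * L ^ 2 / 2)) := by
          apply mul_le_mul_of_nonneg_right (ih g hgd)
          exact mul_nonneg hc.le (Real.exp_pos _).le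
      _ = c ^ (n + 1) * (Real.exp (s ^ 2 * (n : ℝ) * L ^ 2 / 2) * Real.exp (s ^ 2 * L ^ 2 / 2)) := by
          ring
      _ = c ^ (n + 1) * Real.exp (s ^ 2 * ((n + 1 : ℕ) : ℝ) * L ^ 2 / 2) := by
          rw [← Real.exp_add]
          congr 2
          push_cast
          ring

/-- P1: McDiarmid on the cube. -/
theorem mcd {ι : Type} [Fintype ι] [DecidableEq ι] (f : (ι → Bool) → ℝ)
    (hf : ∀ (ω : ι → Bool) (i : ι) (b : Bool), |f (Function.update ω i b) - f ω| ≤ 1) (μ : ℝ)
    (hμ0 : 0 ≤ μ) (hμ : μ * 2 ^ Fintype.card ι ≤ ∑ ω, f ω) (hι : 0 < Fintype.card ι) :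
    ((univ.filter fun ω : ι → Bool => f ω = 0).card : ℝ) ≤
      2 ^ Fintype.card ι * Real.exp (-(μ ^ 2 / (2 * Fintype.card ι))) := by
  obtain ⟨N, hN⟩ : ∃ N : ℕ, N = Fintype.card ι := ⟨_, rfl⟩
  rw [← hN] at hμ hι ⊢
  have hN0 : (0 : ℝ) < N := by exact_mod_cast hι
  let e : ι ≃ Fin N := (Fintype.equivFin ι).trans (finCongr hN.symm)
  let Φ : (Fin N → Bool) ≃ (ι → Bool) :=
    { toFun := fun w i => w (e i)
      invFun := fun ω j => ω (e.symm j)
      left_inv := by
        intro w
        funext i
        simp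
      right_inv := by
        intro ω
        funext i
        simp }
  obtain ⟨s, hs⟩ : ∃ s : ℝ, s = μ / N := ⟨_, rfl⟩
  have hs0 : 0 ≤ s := by rw [hs]; positivity
  obtain ⟨m, hm⟩ : ∃ m : ℝ, m = (∑ ω, f ω) / 2 ^ N := ⟨_, rfl⟩
  have h2N : (0 : ℝ) < 2 ^ N := by positivity
  have hμm : μ ≤ m := by rw [hm, le_div_iff₀ h2N]; exact hμ
  have h1 := mcd_fin (α := Bool) 1 zero_lt_one (-s) N (fun w => f (Φ w)) (by
    intro w j b
    have h2 : Φ (Function.update w j b) = Function.update (Φ w) (e.symm j) b := by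
      funext i
      show Function.update w j b (e i) = _
      by_cases hi : i = e.symm j
      · subst hi
        rw [Function.update_self, Equiv.apply_symm_apply, Function.update_self]
      · rw [Function.update_of_ne hi, Function.update_of_ne]
        · rfl
        · intro h3
          apply hi
          rw [← h3]
          simp
    rw [h2]
    exact hf _ _ _)
  have hc : ((Fintype.card Bool : ℕ) : ℝ) = 2 := by simp
  rw [hc, Φ.sum_comp f] at h1
  rw [← hm, Φ.sum_comp (fun ω => Real.exp (-s * (f ω - m)))] at h1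
  have h3 : ((univ.filter fun ω : ι → Bool => f ω = 0).card : ℝ) * Real.exp (s * μ) ≤
      ∑ ω, Real.exp (-s * (f ω - m)) := by
    rw [← nsmul_eq_mul, ← Finset.sum_const]
    refine (Finset.sum_le_sum fun ω hω => ?_).trans
      (Finset.sum_le_sum_of_subset_of_nonneg (Finset.filter_subset _ _)
        fun ω _ _ => (Real.exp_pos _).le)
    have h0 : f ω = 0 := (Finset.mem_filter.1 hω).2
    rw [h0]
    refine Real.exp_le_exp.2 ?_
    have := mul_le_mul_of_nonneg_left hμm hs0
    linarith
  have h4 := h3.trans h1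
  have h5 : Real.exp (-(μ ^ 2 / (2 * N))) * Real.exp (s * μ)
      = Real.exp ((-s) ^ 2 * (N : ℝ) * 1 ^ 2 / 2) := by
    rw [← Real.exp_add]
    congr 1
    rw [hs]
    field_simp
    ring
  refine le_of_mul_le_mul_right ?_ (Real.exp_pos (s * μ))
  rw [mul_assoc, h5]
  exact h4

end Pool.Agent.V8H97.AA
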