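import Pool.Agent.V8H97.AA.A0
import Pool.Agent.V8H97.AA.P1

/-!
Lower tail for hypergraphs, by fractional packings and the inequality of McDiarmid.
-/

set_option autoImplicit false

open Finset

namespace Pool.Agent.V8H97.AA

/-- P2a -/
theorem count_false {ι : Type} [Fintype ι] [DecidableEq ι] (A : Finset ι) :
    ((univ.filter fun ω : ι → Bool => ∀ e ∈ A, ω e = false).card : ℝ) =
      2 ^ Fintype.card ι * (1 / 2) ^ A.card := by
  have h1 : (univ.filter fun ω : ι → Bool => ∀ e ∈ A, ω e = false) =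
      Fintype.piFinset (fun e => if e ∈ A then ({false} : Finset Bool) else univ) := by
    ext ω
    simp only [mem_filter, mem_univ, true_and, Fintype.mem_piFinset]
    constructor
    · intro h e
      by_cases he : e ∈ A
      · simp [he, h e he]
      · simp [he]
    · intro h e he
      have := h e
      simpa [he] using this
  rw [h1, Fintype.card_piFinset]
  push_cast
  have h2 : ∀ e : ι, (((if e ∈ A then ({false} : Finset Bool) else univ).card : ℕ) : ℝ) =
      2 * (if e ∈ A then (1 / 2 : ℝ) else 1) := by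
    intro e
    by_cases he : e ∈ A
    · simp [he]
    · simp [he]
  rw [Finset.prod_congr rfl fun e _ => h2 e, Finset.prod_mul_distrib, Finset.prod_const,
    Finset.card_univ, Finset.prod_ite_mem, Finset.univ_inter, Finset.prod_const]

section Packing

set_option linter.unusedSectionVars false

variable {ι : Type} [Fintype ι] [DecidableEq ι]

/-- fractional packings of the sets of `J` on which `ω` is false -/
structure Feas (J : Finset (Finset ι)) (ω : ι → Bool) (w : Finset ι → ℝ) : Prop where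
  nonneg : ∀ S, 0 ≤ w S
  supp : ∀ S, w S ≠ 0 → S ∈ J ∧ ∀ e ∈ S, ω e = false
  cap : ∀ e : ι, ∑ S ∈ J.filter (fun S => e ∈ S), w S ≤ 1

/-- the set of values -/
def vals (J : Finset (Finset ι)) (ω : ι → Bool) : Set ℝ :=
  {t | ∃ w, Feas J ω w ∧ t = ∑ S ∈ J, w S}

/-- the fractional packing number -/
noncomputable def pk (J : Finset (Finset ι)) (ω : ι → Bool) : ℝ := sSup (vals J ω)

lemma feas_zero (J : Finset (Finset ι)) (ω : ι → Bool) : Feas J ω (fun _ => 0) :=
  ⟨fun _ => le_rfl, fun _ h => absurd rfl h, fun e => by simp⟩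

lemma vals_nonempty (J : Finset (Finset ι)) (ω : ι → Bool) : (vals J ω).Nonempty :=
  ⟨_, _, feas_zero J ω, rfl⟩

lemma feas_le_one {J : Finset (Finset ι)} (hJ : ∀ S ∈ J, S.Nonempty) {ω : ι → Bool}
    {w : Finset ι → ℝ} (h : Feas J ω w) {S : Finset ι} (hS : S ∈ J) : w S ≤ 1 := by
  obtain ⟨e, he⟩ := hJ S hS
  refine le_trans ?_ (h.cap e)
  exact Finset.single_le_sum (f := w) (fun S _ => h.nonneg S) (mem_filter.2 ⟨hS, he⟩)

lemma vals_bdd {J : Finset (Finset ι)} (hJ : ∀ S ∈ J, S.Nonempty) (ω : ι → Bool) :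
    BddAbove (vals J ω) := by
  refine ⟨J.card, ?_⟩
  rintro t ⟨w, hw, rfl⟩
  calc ∑ S ∈ J, w S ≤ ∑ _S ∈ J, (1 : ℝ) := Finset.sum_le_sum fun S hS => feas_le_one hJ hw hS
    _ = J.card := by simp

lemma le_pk {J : Finset (Finset ι)} (hJ : ∀ S ∈ J, S.Nonempty) {ω : ι → Bool}
    {w : Finset ι → ℝ} (h : Feas J ω w) : ∑ S ∈ J, w S ≤ pk J ω :=
  le_csSup (vals_bdd hJ ω) ⟨w, h, rfl⟩

lemma pk_zero {J : Finset (Finset ι)} {ω : ι → Bool} (h : ∀ S ∈ J, ∃ e ∈ S, ω e = true) :
    pk J ω = 0 := by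
  have h1 : vals J ω = {0} := by
    apply Set.eq_singleton_iff_unique_mem.2
    refine ⟨⟨_, feas_zero J ω, by simp⟩, ?_⟩
    rintro t ⟨w, hw, rfl⟩
    apply Finset.sum_eq_zero
    intro S hS
    by_contra h0
    obtain ⟨e, he, h1⟩ := h S hS
    have := (hw.supp S h0).2 e he
    rw [h1] at this
    exact absurd this (by decide)
  rw [pk, h1, csSup_singleton]

lemma pk_lip_one {J : Finset (Finset ι)} (hJ : ∀ S ∈ J, S.Nonempty) (ω ω' : ι → Bool) (i : ι)
    (h : ∀ e, e ≠ i → ω e = ω' e) : pk J ω' ≤ pk J ω + 1 := by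
  apply csSup_le (vals_nonempty J ω')
  rintro t ⟨w, hw, rfl⟩
  have hw' : Feas J ω (fun S => if i ∈ S then 0 else w S) := by
    refine ⟨fun S => ?_, fun S hS => ?_, fun e => ?_⟩
    · by_cases hi : i ∈ S
      · simp [hi]
      · simp [hi, hw.nonneg S]
    · by_cases hi : i ∈ S
      · exact absurd (by simp [hi]) hS
      · simp only [hi, if_false] at hS
        obtain ⟨h1, h2⟩ := hw.supp S hS
        refine ⟨h1, fun e he => ?_⟩
        rw [h e (fun h3 => hi (h3 ▸ he))]
        exact h2 e he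
    · refine le_trans (Finset.sum_le_sum fun S _ => ?_) (hw.cap e)
      by_cases hi : i ∈ S
      · simp [hi, hw.nonneg S]
      · simp [hi]
  have h1 := le_pk hJ hw'
  have h2 : ∑ S ∈ J, w S = ∑ S ∈ J, (if i ∈ S then 0 else w S) +
      ∑ S ∈ J.filter (fun S => i ∈ S), w S := by
    rw [Finset.sum_filter, ← Finset.sum_add_distrib]
    apply Finset.sum_congr rfl
    intro S _
    by_cases hi : i ∈ S
    · simp [hi]
    · simp [hi]
  rw [h2]
  have h3 := hw.cap i
  linarith

lemma pk_lip {J : Finset (Finset ι)} (hJ : ∀ S ∈ J, S.Nonempty) (ω : ι → Bool) (i : ι)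
    (b : Bool) : |pk J (Function.update ω i b) - pk J ω| ≤ 1 := by
  have h1 := pk_lip_one hJ ω (Function.update ω i b) i fun e he => by
    rw [Function.update_of_ne he]
  have h2 := pk_lip_one hJ (Function.update ω i b) ω i fun e he => by
    rw [Function.update_of_ne he]
  rw [abs_le]
  constructor <;> linarith

/-- indicator -/
noncomputable def ind (ω : ι → Bool) (S : Finset ι) : ℝ := if ∀ e ∈ S, ω e = false then 1 else 0

lemma ind_nonneg (ω : ι → Bool) (S : Finset ι) : 0 ≤ ind ω S := by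
  unfold ind
  split_ifs <;> norm_num

lemma ind_sq (ω : ι → Bool) (S : Finset ι) : ind ω S ^ 2 = ind ω S := by
  unfold ind
  split_ifs <;> norm_num

/-- the number of sets of `J` on which `ω` is false and which meet `S` -/
noncomputable def dg (J : Finset (Finset ι)) (ω : ι → Bool) (S : Finset ι) : ℝ :=
  ∑ S' ∈ J.filter (fun S' => (S ∩ S').Nonempty), ind ω S'

lemma dg_nonneg (J : Finset (Finset ι)) (ω : ι → Bool) (S : Finset ι) : 0 ≤ dg J ω S :=
  Finset.sum_nonneg fun _ _ => ind_nonneg _ _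

lemma dg_pos {J : Finset (Finset ι)} (hJ : ∀ S ∈ J, S.Nonempty) {ω : ι → Bool} {S : Finset ι}
    (hS : S ∈ J) (h : ind ω S ≠ 0) : 0 < dg J ω S := by
  have h1 : ind ω S ≤ dg J ω S := by
    apply Finset.single_le_sum (f := ind ω) (fun _ _ => ind_nonneg _ _)
    rw [mem_filter, inter_self]
    exact ⟨hS, hJ S hS⟩
  exact lt_of_lt_of_le (lt_of_le_of_ne (ind_nonneg _ _) (Ne.symm h)) h1

lemma feas_ind (J : Finset (Finset ι)) (ω : ι → Bool) :
    Feas J ω (fun S => if S ∈ J then ind ω S / dg J ω S else 0) := by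
  refine ⟨fun S => ?_, fun S hS => ?_, fun e => ?_⟩
  · split_ifs
    · exact div_nonneg (ind_nonneg _ _) (dg_nonneg _ _ _)
    · exact le_rfl
  · by_cases h : S ∈ J
    · refine ⟨h, ?_⟩
      simp only [h, if_true] at hS
      by_contra hcon
      apply hS
      have : ind ω S = 0 := by
        unfold ind
        rw [if_neg hcon]
      rw [this, zero_div]
    · exact absurd (by simp [h]) hS
  · set N : ℝ := ∑ S ∈ J.filter (fun S => e ∈ S), ind ω S with hN
    have hN0 : 0 ≤ N := Finset.sum_nonneg fun _ _ => ind_nonneg _ _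
    have h1 : ∀ S ∈ J.filter (fun S => e ∈ S),
        (if S ∈ J then ind ω S / dg J ω S else 0) ≤ ind ω S / N := by
      intro S hS
      obtain ⟨h2, h3⟩ := mem_filter.1 hS
      rw [if_pos h2]
      by_cases h4 : ind ω S = 0
      · rw [h4, zero_div, zero_div]
      · have h5 : ind ω S ≤ N := Finset.single_le_sum (f := ind ω) (fun _ _ => ind_nonneg _ _) hS
        have h6 : 0 < ind ω S := lt_of_le_of_ne (ind_nonneg _ _) (Ne.symm h4)
        have h7 : N ≤ dg J ω S := by
          apply Finset.sum_le_sum_of_subset_of_nonneg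
          · intro S' hS'
            obtain ⟨h8, h9⟩ := mem_filter.1 hS'
            rw [mem_filter]
            exact ⟨h8, e, mem_inter.2 ⟨h3, h9⟩⟩
          · intro _ _ _
            exact ind_nonneg _ _
        exact div_le_div_of_nonneg_left h6.le (lt_of_lt_of_le h6 h5) h7
    refine le_trans (Finset.sum_le_sum h1) ?_
    rw [← Finset.sum_div, ← hN]
    exact div_self_le_one N

/-- the packing number is at least `∑ I_S / d_S` -/
lemma pk_ge {J : Finset (Finset ι)} (hJ : ∀ S ∈ J, S.Nonempty) (ω : ι → Bool) :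
    ∑ S ∈ J, ind ω S / dg J ω S ≤ pk J ω := by
  refine le_trans (le_of_eq ?_) (le_pk hJ (feas_ind J ω))
  apply Finset.sum_congr rfl
  intro S hS
  rw [if_pos hS]

lemma sum_ind (A : Finset ι) : ∑ ω : ι → Bool, ind ω A = 2 ^ Fintype.card ι * (1 / 2) ^ A.card := by
  rw [← count_false A]
  unfold ind
  rw [Finset.sum_boole]

lemma ind_mul (ω : ι → Bool) (S S' : Finset ι) : ind ω S * ind ω S' = ind ω (S ∪ S') := by
  unfold ind
  by_cases h : ∀ e ∈ S, ω e = false
  · by_cases h' : ∀ e ∈ S', ω e = false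
    · rw [if_pos h, if_pos h', if_pos, one_mul]
      intro e he
      rcases mem_union.1 he with h1 | h1
      · exact h e h1
      · exact h' e h1
    · rw [if_pos h, if_neg h', if_neg, mul_zero]
      intro h2
      exact h' fun e he => h2 e (mem_union_right _ he)
  · have h3 : ¬ ∀ e ∈ S ∪ S', ω e = false := fun h2 => h fun e he => h2 e (mem_union_left _ he)
    rw [if_neg h, if_neg h3, zero_mul]

end Packing

/-- P2b: lower tail for hypergraphs, from P1 and P2a -/
theorem lower_tail {ι : Type} [Fintype ι] [DecidableEq ι] (J : Finset (Finset ι))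
    (hJ : ∀ S ∈ J, S.Nonempty) (hι : 0 < Fintype.card ι) (μ Δ : ℝ)
    (hμ : μ = ∑ S ∈ J, (1 / 2 : ℝ) ^ S.card)
    (hΔ : ∑ S ∈ J, ∑ S' ∈ J.filter (fun S' => (S ∩ S').Nonempty), (1 / 2 : ℝ) ^ (S ∪ S').card ≤ Δ)
    (hΔ0 : 0 < Δ) :
    ((univ.filter fun ω : ι → Bool => ∀ S ∈ J, ∃ e ∈ S, ω e = true).card : ℝ) ≤
      2 ^ Fintype.card ι * Real.exp (-((μ ^ 2 / Δ) ^ 2 / (2 * Fintype.card ι))) := by
  have hpow : (0 : ℝ) < 2 ^ Fintype.card ι := by positivity
  have key : μ ^ 2 / Δ * 2 ^ Fintype.card ι ≤ ∑ ω, pk J ω := by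
    have h1 : ∑ ω : ι → Bool, ∑ S ∈ J, ind ω S / dg J ω S ≤ ∑ ω, pk J ω :=
      Finset.sum_le_sum fun ω _ => pk_ge hJ ω
    refine le_trans ?_ h1
    have h2 : (∑ p ∈ (univ : Finset (ι → Bool)) ×ˢ J, ind p.1 p.2) ^ 2 ≤
        (∑ p ∈ (univ : Finset (ι → Bool)) ×ˢ J, ind p.1 p.2 / dg J p.1 p.2) *
          (∑ p ∈ (univ : Finset (ι → Bool)) ×ˢ J, ind p.1 p.2 * dg J p.1 p.2) := by
      apply Finset.sum_sq_le_sum_mul_sum_of_sq_le_mul
      · intro p _
        exact div_nonneg (ind_nonneg _ _) (dg_nonneg _ _ _)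
      · intro p _
        exact mul_nonneg (ind_nonneg _ _) (dg_nonneg _ _ _)
      · intro p hp
        have hS := (mem_product.1 hp).2
        by_cases h0 : ind p.1 p.2 = 0
        · rw [h0]
          simp
        · have h3 := (dg_pos hJ hS h0).ne'
          apply le_of_eq
          field_simp
    rw [Finset.sum_product, Finset.sum_product, Finset.sum_product] at h2
    simp only at h2
    have h3 : ∑ ω : ι → Bool, ∑ S ∈ J, ind ω S = 2 ^ Fintype.card ι * μ := by
      rw [Finset.sum_comm, hμ, Finset.mul_sum]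
      exact Finset.sum_congr rfl fun S _ => sum_ind S
    have h4 : ∑ ω : ι → Bool, ∑ S ∈ J, ind ω S * dg J ω S ≤ 2 ^ Fintype.card ι * Δ := by
      refine le_trans (le_of_eq ?_) (mul_le_mul_of_nonneg_left hΔ hpow.le)
      rw [Finset.sum_comm, Finset.mul_sum]
      apply Finset.sum_congr rfl
      intro S _
      unfold dg
      simp only [Finset.mul_sum]
      rw [Finset.sum_comm]
      apply Finset.sum_congr rfl
      intro S' _
      rw [← sum_ind]
      exact Finset.sum_congr rfl fun ω _ => ind_mul ω S S'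
    rw [h3] at h2
    set A := ∑ ω : ι → Bool, ∑ S ∈ J, ind ω S / dg J ω S with hA
    have hA0 : 0 ≤ A := Finset.sum_nonneg fun ω _ => Finset.sum_nonneg fun S _ =>
      div_nonneg (ind_nonneg _ _) (dg_nonneg _ _ _)
    have h5 : (2 ^ Fintype.card ι * μ) ^ 2 ≤ A * (2 ^ Fintype.card ι * Δ) :=
      le_trans h2 (mul_le_mul_of_nonneg_left h4 hA0)
    rw [div_mul_eq_mul_div, div_le_iff₀ hΔ0]
    have h6 : 2 ^ Fintype.card ι * (μ ^ 2 * 2 ^ Fintype.card ι) ≤
        2 ^ Fintype.card ι * (A * Δ) := by nlinarith [h5]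
    exact le_of_mul_le_mul_left h6 hpow
  have h0 : (univ.filter fun ω : ι → Bool => ∀ S ∈ J, ∃ e ∈ S, ω e = true) ⊆
      univ.filter fun ω : ι → Bool => pk J ω = 0 := by
    intro ω hω
    rw [mem_filter] at hω ⊢
    exact ⟨mem_univ _, pk_zero hω.2⟩
  have h1 : ((univ.filter fun ω : ι → Bool => ∀ S ∈ J, ∃ e ∈ S, ω e = true).card : ℝ) ≤
      ((univ.filter fun ω : ι → Bool => pk J ω = 0).card : ℝ) := by
    exact_mod_cast Finset.card_le_card h0
  refine le_trans h1 ?_
  exact mcd (pk J) (fun ω i b => pk_lip hJ ω i b) (μ ^ 2 / Δ) (by positivity) key hι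

end Pool.Agent.V8H97.AA
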