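import Mathlib
import Pool.Agent.V8H97.AA.A0

open Finset

namespace Pool.Agent.V8H97.AA

theorem p3_choose (k m : ℕ) (hkm : k ≤ m) (l : ℕ) :
    k.choose l * m ^ l ≤ m.choose l * k ^ l := by
  induction l with
  | zero => simp
  | succ l ih =>
    have h1 := Nat.choose_succ_right_eq k l
    have h2 := Nat.choose_succ_right_eq m l
    have h3 : (k - l) * m ≤ (m - l) * k := by
      rcases Nat.lt_or_ge k l with h | h
      · rw [Nat.sub_eq_zero_of_le h.le]; simp
      · obtain ⟨a, rfl⟩ := Nat.exists_eq_add_of_le h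
        obtain ⟨b, rfl⟩ := Nat.exists_eq_add_of_le hkm
        have e1 : l + a - l = a := by omega
        have e2 : l + a + b - l = a + b := by omega
        rw [e1, e2]
        nlinarith [Nat.zero_le (l * b), Nat.zero_le (a * b)]
    have h4 : (k.choose (l + 1) * m ^ (l + 1)) * (l + 1) ≤
        (m.choose (l + 1) * k ^ (l + 1)) * (l + 1) := by
      calc (k.choose (l + 1) * m ^ (l + 1)) * (l + 1)
          = (k.choose (l + 1) * (l + 1)) * m ^ (l + 1) := by ring
        _ = (k.choose l * m ^ l) * ((k - l) * m) := by rw [h1]; ring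
        _ ≤ (m.choose l * k ^ l) * ((m - l) * k) := Nat.mul_le_mul ih h3
        _ = (m.choose l * (m - l)) * k ^ (l + 1) := by ring
        _ = (m.choose (l + 1) * k ^ (l + 1)) * (l + 1) := by rw [← h2]; ring
    exact Nat.le_of_mul_le_mul_right h4 (Nat.succ_pos l)

theorem p3_choose' (k m l : ℕ) (hkm : k ≤ m) (hl : l ≤ k) (hm : 0 < m) :
    ((k.choose l * (m - l).choose (k - l) : ℕ) : ℝ) ≤
      m.choose k * (((k : ℝ) ^ 2 / m) ^ l) := by
  have h0 : (0 : ℝ) < m := by exact_mod_cast hm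
  have hc : 0 < m.choose l := Nat.choose_pos (hl.trans hkm)
  have hc' : (0 : ℝ) < m.choose l := by exact_mod_cast hc
  have h1 : m.choose k * k.choose l = m.choose l * (m - l).choose (k - l) :=
    Nat.choose_mul hl
  have h1' : (m.choose k : ℝ) * k.choose l = m.choose l * (m - l).choose (k - l) := by
    exact_mod_cast h1
  have h2 : (k.choose l : ℝ) * (m : ℝ) ^ l ≤ m.choose l * (k : ℝ) ^ l := by
    exact_mod_cast p3_choose k m hkm l
  have h3 : (k.choose l : ℝ) ≤ (k : ℝ) ^ l := by exact_mod_cast Nat.choose_le_pow k l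
  have h4 : (0 : ℝ) ≤ k.choose l := Nat.cast_nonneg _
  have hml : (0 : ℝ) < (m : ℝ) ^ l := pow_pos h0 l
  rw [div_pow, ← mul_div_assoc, le_div_iff₀ hml]
  push_cast
  have h5 : (m.choose l : ℝ) * ((k.choose l : ℝ) * ((m - l).choose (k - l) : ℝ) * (m : ℝ) ^ l) ≤
      m.choose l * (m.choose k * ((k : ℝ) ^ 2) ^ l) := by
    calc (m.choose l : ℝ) * ((k.choose l : ℝ) * ((m - l).choose (k - l) : ℝ) * (m : ℝ) ^ l)
        = ((m.choose l : ℝ) * ((m - l).choose (k - l) : ℝ)) * (k.choose l : ℝ) * (m : ℝ) ^ l := by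
          ring
      _ = (m.choose k : ℝ) * k.choose l * ((k.choose l : ℝ) * (m : ℝ) ^ l) := by
          rw [← h1']; ring
      _ ≤ (m.choose k : ℝ) * (k : ℝ) ^ l * (m.choose l * (k : ℝ) ^ l) := by
          gcongr
      _ = m.choose l * (m.choose k * ((k : ℝ) ^ 2) ^ l) := by ring
  exact le_of_mul_le_mul_left h5 hc'

theorem p3_geom (k : ℕ) (hk : 1 ≤ k) :
    ∑ l ∈ Icc 2 k, (1 / 2 : ℝ) ^ l = 1 / 2 - (1 / 2) ^ k := by
  induction k, hk using Nat.le_induction with
  | base => simp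
  | succ k hk ih =>
    rw [Finset.sum_Icc_succ_top (by omega), ih, pow_succ]
    ring

theorem p3_term (k l : ℕ) (hl : 2 ≤ l) (hlk : l ≤ k) (r : ℝ) (hr0 : 0 ≤ r)
    (hr : r ^ 2 ≤ (1 / 2) ^ (k + 3)) :
    (2 : ℝ) ^ l.choose 2 * r ^ l ≤ r ^ 2 * (8 * (1 / 2) ^ l) := by
  obtain ⟨j, rfl⟩ : ∃ j, l = j + 2 := ⟨l - 2, by omega⟩
  have hc : (j + 2).choose 2 * 2 = (j + 2) * (j + 1) := by
    rw [Nat.choose_two_right]
    exact Nat.div_mul_cancel (Nat.even_mul_pred_self (j + 2)).two_dvd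
  have h1 : r ^ 2 ≤ (1 / 2) ^ (j + 5) :=
    hr.trans (pow_le_pow_of_le_one (by norm_num) (by norm_num) (by omega))
  have h2 : (2 : ℝ) ^ (j + 2).choose 2 * r ^ j ≤ 2 * (1 / 2) ^ j := by
    rw [← pow_le_pow_iff_left₀ (by positivity) (by positivity) (two_ne_zero)]
    calc ((2 : ℝ) ^ (j + 2).choose 2 * r ^ j) ^ 2
        = 2 ^ ((j + 2).choose 2 * 2) * (r ^ 2) ^ j := by
          rw [mul_pow, ← pow_mul, ← pow_mul, ← pow_mul, mul_comm j 2]
      _ ≤ 2 ^ ((j + 2) * (j + 1)) * ((1 / 2) ^ (j + 5)) ^ j := by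
          rw [hc]
          gcongr
      _ = (2 * (1 / 2) ^ j) ^ 2 := by
          have e1 : (j + 2) * (j + 1) + 2 * j = (j + 5) * j + 2 := by ring
          have e2 : (2 : ℝ) ^ ((j + 2) * (j + 1)) * 2 ^ (2 * j) = 2 ^ ((j + 5) * j) * 4 := by
            rw [← pow_add, e1, pow_add]; norm_num
          have e3 : (2 : ℝ) ^ (2 * j) ≠ 0 := by positivity
          have e4 : (2 : ℝ) ^ ((j + 5) * j) ≠ 0 := by positivity
          rw [← pow_mul, mul_pow, ← pow_mul, mul_comm j 2]
          rw [one_div, inv_pow, inv_pow]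
          field_simp
          rw [e2]
          ring
  calc (2 : ℝ) ^ (j + 2).choose 2 * r ^ (j + 2)
      = r ^ 2 * ((2 : ℝ) ^ (j + 2).choose 2 * r ^ j) := by ring
    _ ≤ r ^ 2 * (2 * (1 / 2) ^ j) := by gcongr
    _ = r ^ 2 * (8 * (1 / 2) ^ (j + 2)) := by ring

theorem p3_count {n : ℕ} (k m l : ℕ) (U S : Finset (Fin n)) (hU : U.card = m) (hSU : S ⊆ U)
    (hS : S.card = k) (hlk : l ≤ k) (hkm : k ≤ m) :
    ((U.powersetCard k).filter (fun S' => (S ∩ S').card = l)).card ≤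
      k.choose l * (m - l).choose (k - l) := by
  classical
  have h1 : ((U.powersetCard k).filter (fun S' => (S ∩ S').card = l)).card ≤
      (S.powersetCard l ×ˢ (U \ S).powersetCard (k - l)).card := by
    apply Finset.card_le_card_of_injOn (fun x => (S ∩ x, x \ S))
    · intro x hx
      rw [Finset.mem_coe, Finset.mem_filter, Finset.mem_powersetCard] at hx
      obtain ⟨⟨h1, h2⟩, h3⟩ := hx
      rw [Finset.mem_coe, Finset.mem_product, Finset.mem_powersetCard, Finset.mem_powersetCard]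
      refine ⟨⟨Finset.inter_subset_left, h3⟩, Finset.sdiff_subset_sdiff h1 le_rfl, ?_⟩
      have h4 := Finset.card_sdiff_add_card_inter x S
      rw [Finset.inter_comm] at h4
      show (x \ S).card = k - l
      omega
    · intro x _ y _ hxy
      have e1 : S ∩ x = S ∩ y := congrArg Prod.fst hxy
      have e2 : x \ S = y \ S := congrArg Prod.snd hxy
      rw [← Finset.sdiff_union_inter x S, ← Finset.sdiff_union_inter y S, e2,
        Finset.inter_comm x S, Finset.inter_comm y S, e1]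
  refine h1.trans ?_
  rw [Finset.card_product, Finset.card_powersetCard, Finset.card_powersetCard, hS,
    Finset.card_sdiff_of_subset hSU, hU, hS]
  exact Nat.mul_le_mul le_rfl (Nat.choose_le_choose _ (by omega))

/-- P3: second moment bound -/
theorem delta_bound {n : ℕ} (k m : ℕ) (hk : 2 ≤ k) (hkm : 4 * k ^ 4 * 2 ^ (k + 1) ≤ m ^ 2)
    (U : Finset (Fin n)) (hU : U.card = m) :
    ∑ S ∈ U.powersetCard k, ∑ S' ∈ (U.powersetCard k).filter (fun S' => 2 ≤ (S ∩ S').card),
      (1 / 2 : ℝ) ^ (2 * k.choose 2 - (S ∩ S').card.choose 2) ≤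
      ((m.choose k : ℝ) * (1 / 2) ^ k.choose 2) ^ 2 * (4 * k ^ 4 / m ^ 2) := by
  have hk4 : 0 < k ^ 4 := by positivity
  have hmk : k ≤ m := by
    by_contra hcon
    have h1 : m < k := not_le.mp hcon
    have h2 : m ^ 2 < k ^ 2 := Nat.pow_lt_pow_left h1 two_ne_zero
    have h3 : k ^ 2 ≤ k ^ 4 := Nat.pow_le_pow_right (by omega) (by norm_num)
    have h4 : 1 ≤ 2 ^ (k + 1) := Nat.one_le_two_pow
    nlinarith
  have hm : 0 < m := by omega
  have hm' : (0 : ℝ) < m := by exact_mod_cast hm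
  set r : ℝ := (k : ℝ) ^ 2 / m with hr
  have hr0 : 0 ≤ r := by positivity
  have hr2 : r ^ 2 ≤ (1 / 2) ^ (k + 3) := by
    have h1 : (4 * k ^ 4 * 2 ^ (k + 1) : ℝ) ≤ m ^ 2 := by exact_mod_cast hkm
    rw [hr, div_pow, one_div, inv_pow, div_le_iff₀ (by positivity), ← div_eq_inv_mul,
      le_div_iff₀ (by positivity)]
    calc ((k : ℝ) ^ 2) ^ 2 * (2 : ℝ) ^ (k + 3) = 4 * (k : ℝ) ^ 4 * (2 : ℝ) ^ (k + 1) := by ring
      _ ≤ (m : ℝ) ^ 2 := h1
  have hinner : ∀ S ∈ U.powersetCard k,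
      ∑ S' ∈ (U.powersetCard k).filter (fun S' => 2 ≤ (S ∩ S').card),
        (1 / 2 : ℝ) ^ (2 * k.choose 2 - (S ∩ S').card.choose 2) ≤
      (1 / 2 : ℝ) ^ (2 * k.choose 2) * (m.choose k * (4 * r ^ 2)) := by
    intro S hS
    rw [Finset.mem_powersetCard] at hS
    obtain ⟨hSU, hSk⟩ := hS
    have e0 : ∀ S' : Finset (Fin n), (S ∩ S').card ≤ k := fun S' =>
      hSk ▸ Finset.card_le_card Finset.inter_subset_left
    have e1 : ∀ S' ∈ (U.powersetCard k).filter (fun S' => 2 ≤ (S ∩ S').card),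
        (1 / 2 : ℝ) ^ (2 * k.choose 2 - (S ∩ S').card.choose 2) =
        (1 / 2 : ℝ) ^ (2 * k.choose 2) * 2 ^ (S ∩ S').card.choose 2 := by
      intro S' _
      have h1 : (S ∩ S').card.choose 2 ≤ 2 * k.choose 2 :=
        (Nat.choose_le_choose 2 (e0 S')).trans (by omega)
      obtain ⟨c, hc⟩ := Nat.exists_eq_add_of_le h1
      rw [hc, Nat.add_sub_cancel_left, pow_add]
      have h2 : (1 / 2 : ℝ) ^ (S ∩ S').card.choose 2 * 2 ^ (S ∩ S').card.choose 2 = 1 := by
        rw [← mul_pow]; norm_num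
      calc (1 / 2 : ℝ) ^ c = ((1 / 2 : ℝ) ^ (S ∩ S').card.choose 2 *
            2 ^ (S ∩ S').card.choose 2) * (1 / 2) ^ c := by rw [h2, one_mul]
        _ = _ := by ring
    rw [Finset.sum_congr rfl e1, ← Finset.mul_sum]
    refine mul_le_mul_of_nonneg_left ?_ (by positivity)
    rw [← Finset.sum_fiberwise_of_maps_to (t := Icc 2 k) (g := fun S' => (S ∩ S').card)
      (fun x hx => by
        rw [Finset.mem_filter] at hx
        exact Finset.mem_Icc.mpr ⟨hx.2, e0 x⟩)]
    have e2 : ∀ l ∈ Icc 2 k,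
        ∑ x ∈ ((U.powersetCard k).filter (fun S' => 2 ≤ (S ∩ S').card)).filter
          (fun x => (S ∩ x).card = l), (2 : ℝ) ^ (S ∩ x).card.choose 2 ≤
        m.choose k * (r ^ 2 * (8 * (1 / 2) ^ l)) := by
      intro l hl
      obtain ⟨hl2, hlk⟩ := Finset.mem_Icc.mp hl
      have h1 : ∑ x ∈ ((U.powersetCard k).filter (fun S' => 2 ≤ (S ∩ S').card)).filter
          (fun x => (S ∩ x).card = l), (2 : ℝ) ^ (S ∩ x).card.choose 2 =
          ((((U.powersetCard k).filter (fun S' => 2 ≤ (S ∩ S').card)).filter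
          (fun x => (S ∩ x).card = l)).card : ℝ) * 2 ^ l.choose 2 := by
        rw [Finset.sum_congr rfl (fun x hx => by
          rw [(Finset.mem_filter.mp hx).2]), Finset.sum_const, nsmul_eq_mul]
      rw [h1]
      have h2 : (((U.powersetCard k).filter (fun S' => 2 ≤ (S ∩ S').card)).filter
          (fun x => (S ∩ x).card = l)).card ≤ k.choose l * (m - l).choose (k - l) := by
        refine le_trans (Finset.card_le_card ?_) (p3_count k m l U S hU hSU hSk hlk hmk)
        intro x hx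
        rw [Finset.mem_filter, Finset.mem_filter] at hx
        exact Finset.mem_filter.mpr ⟨hx.1.1, hx.2⟩
      have h3 : ((((U.powersetCard k).filter (fun S' => 2 ≤ (S ∩ S').card)).filter
          (fun x => (S ∩ x).card = l)).card : ℝ) ≤ m.choose k * r ^ l :=
        le_trans (by exact_mod_cast h2) (p3_choose' k m l hmk hlk hm)
      calc _ ≤ (m.choose k * r ^ l) * 2 ^ l.choose 2 :=
            mul_le_mul_of_nonneg_right h3 (by positivity)
        _ = m.choose k * (2 ^ l.choose 2 * r ^ l) := by ring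
        _ ≤ m.choose k * (r ^ 2 * (8 * (1 / 2) ^ l)) :=
            mul_le_mul_of_nonneg_left (p3_term k l hl2 hlk r hr0 hr2) (Nat.cast_nonneg _)
    refine (Finset.sum_le_sum e2).trans ?_
    rw [← Finset.mul_sum, ← Finset.mul_sum, ← Finset.mul_sum, p3_geom k (by omega)]
    have h4 : (0 : ℝ) ≤ (1 / 2) ^ k := by positivity
    have h5 : (0 : ℝ) ≤ m.choose k := Nat.cast_nonneg _
    refine mul_le_mul_of_nonneg_left ?_ h5
    nlinarith [sq_nonneg r, mul_nonneg (sq_nonneg r) h4]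
  refine (Finset.sum_le_sum hinner).trans ?_
  rw [Finset.sum_const, Finset.card_powersetCard, hU, nsmul_eq_mul]
  apply le_of_eq
  rw [hr]
  field_simp
  ring

end Pool.Agent.V8H97.AA
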