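import Mathlib
import Pool.Agent.V8H97.AA.A0
import Pool.Agent.V8H97.AA.P2
import Pool.Agent.V8H97.AA.P3

open Finset

namespace Pool.Agent.V8H97.AA

theorem eds_card {n : ℕ} (S : Finset (Fin n)) : (eds S).card = S.card.choose 2 := by
  classical
  rw [← Sym2.card_image_offDiag S, ← Finset.card_map (Function.Embedding.subtype _)]
  congr 1
  ext e
  rw [mem_map, mem_image]
  constructor
  · rintro ⟨e', he', rfl⟩
    obtain ⟨e', hd⟩ := e'
    unfold eds at he'
    rw [mem_filter] at he'
    induction e' using Sym2.ind with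
    | _ a b =>
      refine ⟨(a, b), ?_, rfl⟩
      rw [mem_offDiag]
      exact ⟨he'.2 a (by simp), he'.2 b (by simp), fun h => hd (by simpa using h)⟩
  · rintro ⟨⟨a, b⟩, hab, rfl⟩
    rw [mem_offDiag] at hab
    refine ⟨⟨s(a, b), by simpa using hab.2.2⟩, ?_, rfl⟩
    unfold eds
    rw [mem_filter]
    refine ⟨mem_univ _, ?_⟩
    intro v hv
    simp only [Sym2.mem_iff] at hv
    rcases hv with rfl | rfl
    · exact hab.1
    · exact hab.2.1

theorem card_E (n : ℕ) : Fintype.card (E n) = n.choose 2 := by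
  have := Sym2.card_subtype_not_diag (α := Fin n)
  rw [Fintype.card_fin] at this
  convert this

lemma eds_inter {n : ℕ} (S T : Finset (Fin n)) : eds S ∩ eds T = eds (S ∩ T) := by
  ext e
  unfold eds
  simp only [mem_inter, mem_filter, mem_univ, true_and]
  exact ⟨fun h v hv => ⟨h.1 v hv, h.2 v hv⟩, fun h => ⟨fun v hv => (h v hv).1, fun v hv => (h v hv).2⟩⟩

lemma eds_sub {n : ℕ} (S T : Finset (Fin n)) (hS : 2 ≤ S.card) (h : eds S = eds T) : S ⊆ T := by
  intro v hv
  obtain ⟨w, hw, hwv⟩ := exists_mem_ne (show 1 < S.card by omega) v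
  have : (⟨s(v, w), by simpa using fun e : v = w => hwv e.symm⟩ : E n) ∈ eds S := by
    unfold eds
    rw [mem_filter]
    refine ⟨mem_univ _, ?_⟩
    intro u hu
    simp only [Sym2.mem_iff] at hu
    rcases hu with rfl | rfl
    · exact hv
    · exact hw
  rw [h] at this
  unfold eds at this
  rw [mem_filter] at this
  exact this.2 v (by simp)

theorem graph_tail {n : ℕ} (k m : ℕ) (hn : 2 ≤ n) (hk : 2 ≤ k)
    (hkm : 4 * k ^ 4 * 2 ^ (k + 1) ≤ m ^ 2) (U : Finset (Fin n)) (hU : U.card = m) :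
    ((univ.filter fun ω : E n → Bool => ∀ S ∈ U.powersetCard k, ∃ e ∈ eds S, ω e = true).card : ℝ) ≤
      2 ^ n.choose 2 * Real.exp (-(((m : ℝ) ^ 2 / (4 * k ^ 4)) ^ 2 / (2 * n.choose 2))) := by
  classical
  have hkm' : k ≤ m := by
    by_contra h
    push Not at h
    have h1 : m ^ 2 < k ^ 2 := Nat.pow_lt_pow_left h (by norm_num)
    have h2 : k ^ 2 ≤ k ^ 4 := Nat.pow_le_pow_right (by omega) (by norm_num)
    have h3 : 1 ≤ 2 ^ (k + 1) := Nat.one_le_two_pow
    nlinarith
  have hinj : Set.InjOn (eds (n := n)) (U.powersetCard k : Set (Finset (Fin n))) := by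
    intro S hS T hT h
    rw [mem_coe, mem_powersetCard] at hS hT
    exact eq_of_subset_of_card_le (eds_sub S T (by omega) h) (by omega)
  obtain ⟨P, hP⟩ : ∃ P, P = U.powersetCard k := ⟨_, rfl⟩
  have hPc : ∀ S ∈ P, S.card = k := by intro S hS; rw [hP, mem_powersetCard] at hS; exact hS.2
  rw [← hP] at hinj
  have hch : 0 < k.choose 2 := Nat.choose_pos hk
  have hE : 0 < Fintype.card (E n) := by rw [card_E]; exact Nat.choose_pos hn
  obtain ⟨μ, hμ⟩ : ∃ μ : ℝ, μ = (m.choose k : ℝ) * (1 / 2) ^ k.choose 2 := ⟨_, rfl⟩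
  have hμ0 : 0 < μ := by
    rw [hμ]
    have : (0 : ℝ) < m.choose k := by exact_mod_cast Nat.choose_pos hkm'
    positivity
  have hm0 : (0 : ℝ) < m := by
    have : 0 < m := by omega
    exact_mod_cast this
  have hk0 : (0 : ℝ) < k := by
    have : 0 < k := by omega
    exact_mod_cast this
  have hsum : μ = ∑ S ∈ P.image eds, (1 / 2 : ℝ) ^ S.card := by
    rw [sum_image hinj, sum_congr rfl fun S hS => by rw [eds_card, hPc S hS], sum_const,
      nsmul_eq_mul, hP, card_powersetCard, hU, hμ]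
  have hdelta : ∑ S ∈ P.image eds, ∑ S' ∈ (P.image eds).filter (fun S' => (S ∩ S').Nonempty),
      (1 / 2 : ℝ) ^ (S ∪ S').card ≤ μ ^ 2 * (4 * k ^ 4 / m ^ 2) := by
    have h := delta_bound k m hk hkm U hU
    rw [← hP, ← hμ] at h
    refine le_trans (le_of_eq ?_) h
    rw [sum_image hinj]
    refine sum_congr rfl fun S hS => ?_
    rw [filter_image, sum_image (hinj.mono (by intro x hx; exact (mem_filter.1 hx).1))]
    have hfil : P.filter (fun S' => (eds S ∩ eds S').Nonempty) =
        P.filter (fun S' => 2 ≤ (S ∩ S').card) := by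
      ext S'
      rw [mem_filter, mem_filter]
      refine and_congr_right fun _ => ?_
      rw [eds_inter, ← Finset.card_pos, eds_card]
      constructor
      · intro h3
        by_contra h4
        push Not at h4
        rw [Nat.choose_eq_zero_of_lt h4] at h3
        exact absurd h3 (lt_irrefl 0)
      · intro h3
        exact Nat.choose_pos h3
    rw [hfil]
    refine sum_congr rfl fun S' hS' => ?_
    have h5 := card_union_add_card_inter (eds S) (eds S')
    rw [eds_inter, eds_card, eds_card, eds_card, hPc S hS, hPc S' (mem_filter.1 hS').1] at h5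
    congr 1
    omega
  have hpos : 0 < μ ^ 2 * (4 * (k : ℝ) ^ 4 / m ^ 2) := by positivity
  have hmain := lower_tail (P.image eds) (by
    intro S hS
    obtain ⟨S', hS', rfl⟩ := mem_image.1 hS
    rw [← Finset.card_pos, eds_card, hPc S' hS']
    exact hch) hE μ _ hsum hdelta hpos
  have e1 : μ ^ 2 / (μ ^ 2 * (4 * (k : ℝ) ^ 4 / m ^ 2)) = (m : ℝ) ^ 2 / (4 * k ^ 4) := by
    field_simp
  rw [e1, card_E] at hmain
  refine le_trans (le_of_eq ?_) hmain
  rw [← hP]
  congr 2
  ext ω
  rw [mem_filter, mem_filter]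
  refine and_congr_right fun _ => ?_
  constructor
  · intro h S hS
    obtain ⟨S', hS', rfl⟩ := mem_image.1 hS
    exact h S' hS'
  · intro h S hS
    exact h _ (mem_image_of_mem _ hS)

end Pool.Agent.V8H97.AA
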