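import Pool.Agent.V8H97.AA.A0

/-!
Part P5 (helper1): the graphs are the points of the cube.
-/

open Finset

namespace Pool.Agent.V8H97.AA

theorem gr_injective (n : ℕ) : Function.Injective (gr : (E n → Bool) → SimpleGraph (Fin n)) := by
  intro ω ω' h
  funext e
  obtain ⟨e, he⟩ := e
  induction e using Sym2.ind with
  | _ i j =>
    have h1 : (gr ω).Adj i j ↔ (gr ω').Adj i j := by rw [h]
    have h2 : (gr ω).Adj i j ↔ ω ⟨s(i, j), he⟩ = true :=
      ⟨fun ⟨_, h'⟩ => h', fun h' => ⟨he, h'⟩⟩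
    have h3 : (gr ω').Adj i j ↔ ω' ⟨s(i, j), he⟩ = true :=
      ⟨fun ⟨_, h'⟩ => h', fun h' => ⟨he, h'⟩⟩
    rw [h2, h3] at h1
    exact Bool.eq_iff_iff.2 h1

theorem gr_surjective (n : ℕ) : Function.Surjective (gr : (E n → Bool) → SimpleGraph (Fin n)) := by
  classical
  intro H
  refine ⟨fun e => decide (e.1 ∈ H.edgeSet), ?_⟩
  ext i j
  constructor
  · rintro ⟨h, h'⟩
    rw [decide_eq_true_iff, SimpleGraph.mem_edgeSet] at h'
    exact h'
  · intro h
    refine ⟨?_, ?_⟩
    · rw [Sym2.mk_isDiag_iff]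
      exact h.ne
    · rw [decide_eq_true_iff, SimpleGraph.mem_edgeSet]
      exact h

/-- P5 -/
theorem count_graphs {n : ℕ} (P : SimpleGraph (Fin n) → Prop) [DecidablePred P] :
    {H : SimpleGraph (Fin n) | P H}.ncard =
      (univ.filter fun ω : E n → Bool => P (gr ω)).card := by
  have h1 : {H : SimpleGraph (Fin n) | P H} =
      gr '' (↑(univ.filter fun ω : E n → Bool => P (gr ω)) : Set (E n → Bool)) := by
    ext H
    constructor
    · intro h
      obtain ⟨ω, rfl⟩ := gr_surjective n H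
      exact ⟨ω, by
        rw [coe_filter]
        exact ⟨mem_univ _, h⟩, rfl⟩
    · rintro ⟨ω, hω, rfl⟩
      rw [coe_filter] at hω
      exact hω.2
  rw [h1, Set.ncard_image_of_injective _ (gr_injective n), Set.ncard_coe_finset]

end Pool.Agent.V8H97.AA
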