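import Pool.Agent.V8H97.AA.P2
import Pool.Agent.V8H97.AA.P4
import Pool.Agent.V8H97.AA.P5

/-!
Part P6 (helper1): the union bound.
-/

open Finset

namespace Pool.Agent.V8H97.AA

theorem clique_iff {n : ℕ} (ω : E n → Bool) (S : Finset (Fin n)) :
    (∀ u ∈ S, ∀ v ∈ S, u ≠ v → (gr ω).Adj u v) ↔ ∀ e ∈ eds S, ω e = true := by
  constructor
  · rintro h ⟨e, he⟩ hS
    induction e using Sym2.ind with
    | _ i j =>
      have h1 := (mem_filter.1 hS).2
      have hij : i ≠ j := by
        rw [Sym2.mk_isDiag_iff] at he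
        exact he
      obtain ⟨_, h3⟩ := h i (h1 i (by simp)) j (h1 j (by simp)) hij
      exact h3
  · intro h u hu v hv huv
    refine ⟨by rw [Sym2.mk_isDiag_iff]; exact huv, h _ ?_⟩
    rw [eds, mem_filter]
    refine ⟨mem_univ _, fun w hw => ?_⟩
    rcases Sym2.mem_iff.1 hw with rfl | rfl
    · exact hu
    · exact hv

theorem indep_iff {n : ℕ} (ω : E n → Bool) (S : Finset (Fin n)) :
    (∀ u ∈ S, ∀ v ∈ S, u ≠ v → ¬ (gr ω).Adj u v) ↔ ∀ e ∈ eds S, ω e = false := by
  constructor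
  · rintro h ⟨e, he⟩ hS
    induction e using Sym2.ind with
    | _ i j =>
      have h1 := (mem_filter.1 hS).2
      have hij : i ≠ j := by
        rw [Sym2.mk_isDiag_iff] at he
        exact he
      have h2 := h i (h1 i (by simp)) j (h1 j (by simp)) hij
      by_contra h3
      exact h2 ⟨he, by simpa using h3⟩
  · rintro h u hu v hv huv ⟨h1, h2⟩
    have h3 := h ⟨s(u, v), h1⟩ (by
      rw [eds, mem_filter]
      refine ⟨mem_univ _, fun w hw => ?_⟩
      rcases Sym2.mem_iff.1 hw with rfl | rfl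
      · exact hu
      · exact hv)
    rw [h3] at h2
    exact Bool.false_ne_true h2

theorem card_neg {ι : Type} [Fintype ι] [DecidableEq ι] (Q : (ι → Bool) → Prop) [DecidablePred Q] :
    (univ.filter fun ω : ι → Bool => Q (fun e => !ω e)).card = (univ.filter Q).card := by
  refine card_nbij' (fun ω e => !ω e) (fun ω e => !ω e) ?_ ?_ ?_ ?_
  · intro ω hω
    simpa using hω
  · intro ω hω
    simpa using hω
  · intro ω _
    simp
  · intro ω _
    simp

theorem count_true {ι : Type} [Fintype ι] [DecidableEq ι] (A : Finset ι) :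
    ((univ.filter fun ω : ι → Bool => ∀ e ∈ A, ω e = true).card : ℝ) =
      2 ^ Fintype.card ι * (1 / 2) ^ A.card := by
  rw [← count_false A, ← card_neg fun ω : ι → Bool => ∀ e ∈ A, ω e = false]
  simp only [Bool.not_eq_false']

theorem graph_tail' {n : ℕ} (k m : ℕ) (hn : 2 ≤ n) (hk : 2 ≤ k)
    (hkm : 4 * k ^ 4 * 2 ^ (k + 1) ≤ m ^ 2) (U : Finset (Fin n)) (hU : U.card = m) :
    ((univ.filter fun ω : E n → Bool => ∀ S ∈ U.powersetCard k, ∃ e ∈ eds S, ω e = false).card : ℝ) ≤
      2 ^ n.choose 2 * Real.exp (-(((m : ℝ) ^ 2 / (4 * k ^ 4)) ^ 2 / (2 * n.choose 2))) := by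
  refine le_trans (le_of_eq ?_) (graph_tail k m hn hk hkm U hU)
  rw [← card_neg fun ω : E n → Bool => ∀ S ∈ U.powersetCard k, ∃ e ∈ eds S, ω e = true]
  simp only [Bool.not_eq_true']

/-- P6: union bound, from P2a, P4, P5 (cliques by the symmetry `ω ↦ !ω`) -/
theorem union_bound (n k m s : ℕ) (hn : 2 ≤ n) (hk : 2 ≤ k)
    (hkm : 4 * k ^ 4 * 2 ^ (k + 1) ≤ m ^ 2) :
    ({H : SimpleGraph (Fin n) | ¬ Typ k m s H}.ncard : ℝ) ≤ 2 ^ n.choose 2 *
      (2 * 2 ^ n * Real.exp (-(((m : ℝ) ^ 2 / (4 * k ^ 4)) ^ 2 / (2 * n.choose 2))) +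
        2 * (n : ℝ) ^ s * (1 / 2) ^ s.choose 2) := by
  let _ : DecidablePred fun H : SimpleGraph (Fin n) => ¬ Typ k m s H := Classical.decPred _
  rw [count_graphs fun H : SimpleGraph (Fin n) => ¬ Typ k m s H]
  set X : ℝ := 2 ^ n.choose 2 * Real.exp (-(((m : ℝ) ^ 2 / (4 * k ^ 4)) ^ 2 / (2 * n.choose 2)))
    with hX
  set Y : ℝ := 2 ^ n.choose 2 * (1 / 2) ^ s.choose 2 with hY
  let C1 : Finset (Fin n) → Finset (E n → Bool) := fun U =>
    univ.filter fun ω : E n → Bool => ∀ S ∈ U.powersetCard k, ∃ e ∈ eds S, ω e = true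
  let C2 : Finset (Fin n) → Finset (E n → Bool) := fun U =>
    univ.filter fun ω : E n → Bool => ∀ S ∈ U.powersetCard k, ∃ e ∈ eds S, ω e = false
  let D1 : Finset (Fin n) → Finset (E n → Bool) := fun S =>
    univ.filter fun ω : E n → Bool => ∀ e ∈ eds S, ω e = true
  let D2 : Finset (Fin n) → Finset (E n → Bool) := fun S =>
    univ.filter fun ω : E n → Bool => ∀ e ∈ eds S, ω e = false
  let UU : Finset (Finset (Fin n)) := univ.powersetCard m
  let SS : Finset (Finset (Fin n)) := univ.powersetCard s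
  have hsub : (univ.filter fun ω : E n → Bool => ¬ Typ k m s (gr ω)) ⊆
      (UU.biUnion fun U => C1 U ∪ C2 U) ∪ (SS.biUnion fun S => D1 S ∪ D2 S) := by
    intro ω hω
    have h1 := (mem_filter.1 hω).2
    by_contra hcon
    rw [mem_union, not_or, mem_biUnion, mem_biUnion] at hcon
    obtain ⟨k1, k2⟩ := hcon
    push Not at k1 k2
    apply h1
    refine ⟨fun U hU => ?_, fun S hS => ?_⟩
    · have h2 := k1 U (mem_powersetCard.2 ⟨subset_univ _, hU⟩)
      rw [mem_union, not_or] at h2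
      obtain ⟨h3, h4⟩ := h2
      have h3' : ¬ ∀ S ∈ U.powersetCard k, ∃ e ∈ eds S, ω e = true := fun h =>
        h3 (mem_filter.2 ⟨mem_univ _, h⟩)
      have h4' : ¬ ∀ S ∈ U.powersetCard k, ∃ e ∈ eds S, ω e = false := fun h =>
        h4 (mem_filter.2 ⟨mem_univ _, h⟩)
      push Not at h3' h4'
      obtain ⟨S, hS, h5⟩ := h3'
      obtain ⟨S', hS', h6⟩ := h4'
      obtain ⟨a1, a2⟩ := mem_powersetCard.1 hS
      obtain ⟨b1, b2⟩ := mem_powersetCard.1 hS'
      refine ⟨⟨S', b1, b2, (clique_iff ω S').2 fun e he => ?_⟩,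
        ⟨S, a1, a2, (indep_iff ω S).2 fun e he => ?_⟩⟩
      · simpa using h6 e he
      · simpa using h5 e he
    · have h2 := k2 S (mem_powersetCard.2 ⟨subset_univ _, hS⟩)
      rw [mem_union, not_or] at h2
      obtain ⟨h3, h4⟩ := h2
      exact ⟨fun h => h3 (mem_filter.2 ⟨mem_univ _, (clique_iff ω S).1 h⟩),
        fun h => h4 (mem_filter.2 ⟨mem_univ _, (indep_iff ω S).1 h⟩)⟩
  have hcard : (univ.filter fun ω : E n → Bool => ¬ Typ k m s (gr ω)).card ≤
      ∑ U ∈ UU, ((C1 U).card + (C2 U).card) + ∑ S ∈ SS, ((D1 S).card + (D2 S).card) := by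
    refine (card_le_card hsub).trans ((card_union_le _ _).trans (add_le_add ?_ ?_))
    · exact card_biUnion_le.trans (sum_le_sum fun U _ => card_union_le _ _)
    · exact card_biUnion_le.trans (sum_le_sum fun U _ => card_union_le _ _)
  have hX0 : 0 ≤ X := by positivity
  have hY0 : 0 ≤ Y := by positivity
  have e1 : ∀ U ∈ UU, (((C1 U).card + (C2 U).card : ℕ) : ℝ) ≤ 2 * X := by
    intro U hU
    have hU' := (mem_powersetCard.1 hU).2
    have h1 := graph_tail k m hn hk hkm U hU'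
    have h2 := graph_tail' k m hn hk hkm U hU'
    push_cast
    simp only [C1, C2]
    linarith
  have e2 : ∀ S ∈ SS, (((D1 S).card + (D2 S).card : ℕ) : ℝ) ≤ 2 * Y := by
    intro S hS
    have hS' := (mem_powersetCard.1 hS).2
    have h1 := count_true (ι := E n) (eds S)
    have h2 := count_false (ι := E n) (eds S)
    rw [eds_card, hS', card_E] at h1 h2
    push_cast
    simp only [D1, D2]
    rw [h1, h2]
    linarith
  have hUU : (UU.card : ℝ) ≤ 2 ^ n := by
    have h1 : UU.card ≤ 2 ^ n := by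
      have h2 : UU.card ≤ (univ : Finset (Finset (Fin n))).card := card_le_card (subset_univ _)
      rwa [card_univ, Fintype.card_finset, Fintype.card_fin] at h2
    exact_mod_cast h1
  have hSS : (SS.card : ℝ) ≤ (n : ℝ) ^ s := by
    have h1 : SS.card ≤ n ^ s := by
      rw [card_powersetCard, card_univ, Fintype.card_fin]
      exact Nat.choose_le_pow n s
    exact_mod_cast h1
  calc ((univ.filter fun ω : E n → Bool => ¬ Typ k m s (gr ω)).card : ℝ)
      ≤ ((∑ U ∈ UU, ((C1 U).card + (C2 U).card) + ∑ S ∈ SS, ((D1 S).card + (D2 S).card) : ℕ) : ℝ) := by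
        exact_mod_cast hcard
    _ = ∑ U ∈ UU, (((C1 U).card + (C2 U).card : ℕ) : ℝ) +
        ∑ S ∈ SS, (((D1 S).card + (D2 S).card : ℕ) : ℝ) := by push_cast; rfl
    _ ≤ UU.card * (2 * X) + SS.card * (2 * Y) := by
        refine add_le_add ?_ ?_
        · refine (sum_le_sum e1).trans (le_of_eq ?_)
          rw [sum_const, nsmul_eq_mul]
        · refine (sum_le_sum e2).trans (le_of_eq ?_)
          rw [sum_const, nsmul_eq_mul]
    _ ≤ 2 ^ n * (2 * X) + (n : ℝ) ^ s * (2 * Y) := by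
        refine add_le_add (mul_le_mul_of_nonneg_right hUU (by linarith))
          (mul_le_mul_of_nonneg_right hSS (by linarith))
    _ = _ := by
        rw [hX, hY]
        ring

end Pool.Agent.V8H97.AA
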