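import Mathlib
import Pool.Agent.V8H97.AA.A0

open Finset Filter

namespace Pool.Agent.V8H97.AA

theorem p7_pow (C k : ℕ) : ∀ᶠ q : ℕ in atTop, C * (q + 1) ^ k < 2 ^ q := by
  have h := tendsto_pow_const_div_const_pow_of_one_lt k (r := (2 : ℝ)) (by norm_num)
  have h1 : ∀ᶠ q : ℕ in atTop, (q : ℝ) ^ k / 2 ^ q < 1 / (2 * (C + 1)) :=
    h.eventually_lt_const (by positivity)
  have h2 := (tendsto_add_atTop_nat 1).eventually h1
  filter_upwards [h2] with q hq
  have h3 : (0 : ℝ) < 2 ^ (q + 1) := by positivity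
  rw [div_lt_div_iff₀ h3 (by positivity), pow_succ] at hq
  have h4 : ((C : ℝ) + 1) * ((q : ℝ) + 1) ^ k < 2 ^ q := by
    push_cast at hq
    nlinarith [hq]
  have h5 : (C : ℝ) * ((q : ℝ) + 1) ^ k < 2 ^ q := by
    have : (0 : ℝ) ≤ ((q : ℝ) + 1) ^ k := by positivity
    nlinarith
  exact_mod_cast h5

theorem p7_log : Tendsto (fun n : ℕ => Nat.log 2 n / 10) atTop atTop := by
  have h1 : Tendsto (fun n : ℕ => Nat.log 2 n) atTop atTop := by
    rw [tendsto_atTop]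
    intro b
    filter_upwards [eventually_ge_atTop (2 ^ b)] with n hn
    exact Nat.le_log_of_pow_le (by norm_num) hn
  have h2 : Tendsto (fun n : ℕ => n / 10) atTop atTop := by
    rw [tendsto_atTop]
    intro b
    filter_upwards [eventually_ge_atTop (10 * b)] with n hn
    omega
  exact h2.comp h1

/-- P7a: numbers -/
theorem numeric1 : ∀ᶠ n : ℕ in Filter.atTop, 2 ≤ n ∧ 2 ≤ 6 * Nat.log 2 n / 5 ∧
    4 * (6 * Nat.log 2 n / 5) ^ 4 * 2 ^ (6 * Nat.log 2 n / 5 + 1) ≤ (2 ^ (9 * Nat.log 2 n / 10)) ^ 2 ∧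
    52 * (n / (6 * Nat.log 2 n / 5) + 1 + 2 ^ (9 * Nat.log 2 n / 10)) <
      100 * ((n - 1) / (2 * Nat.log 2 n + 3)) := by
  filter_upwards [eventually_ge_atTop 2, p7_log.eventually (eventually_ge_atTop 4),
    p7_log.eventually (p7_pow (16 * 12 ^ 4) 4), p7_log.eventually (p7_pow 680 1)] with n h1 h2 h3 h4
  have hn0 : n ≠ 0 := by omega
  have hL1 : 2 ^ Nat.log 2 n ≤ n := Nat.pow_log_le_self 2 hn0
  generalize Nat.log 2 n = L at *
  set q := L / 10 with hq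
  set a := 6 * L / 5 with ha
  set b := 9 * L / 10 with hb
  have ha1 : a ≤ 12 * (q + 1) := by omega
  have hab : a + 6 * q ≤ 2 * b + 1 := by omega
  have hbL : b + q ≤ L := by omega
  refine ⟨h1, by omega, ?_, ?_⟩
  · have e1 : 4 * a ^ 4 * 2 ^ (a + 1) = 8 * a ^ 4 * 2 ^ a := by ring
    have e2 : 8 * a ^ 4 ≤ 8 * (12 * (q + 1)) ^ 4 := by gcongr
    have e3 : 2 * (8 * (12 * (q + 1)) ^ 4) ≤ 2 ^ q := by
      calc 2 * (8 * (12 * (q + 1)) ^ 4) = 16 * 12 ^ 4 * (q + 1) ^ 4 := by ring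
        _ ≤ 2 ^ q := h3.le
    have e4 : 2 ^ q ≤ 2 ^ (6 * q) := Nat.pow_le_pow_right (by norm_num) (by omega)
    have e5 : 2 * (4 * a ^ 4 * 2 ^ (a + 1)) ≤ 2 * (2 ^ b) ^ 2 := by
      calc 2 * (4 * a ^ 4 * 2 ^ (a + 1)) = 2 * (8 * a ^ 4) * 2 ^ a := by ring
        _ ≤ 2 ^ (6 * q) * 2 ^ a := by gcongr; omega
        _ = 2 ^ (a + 6 * q) := by rw [← pow_add]; congr 1; omega
        _ ≤ 2 ^ (2 * b + 1) := Nat.pow_le_pow_right (by norm_num) hab
        _ = 2 * (2 ^ b) ^ 2 := by rw [← pow_mul, pow_succ, mul_comm b 2, mul_comm]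
    omega
  · have hq4 : 40 ≤ L := by omega
    have hapos : 0 < a := by omega
    have ha2 : 6 * (L : ℝ) - 4 ≤ 5 * a := by
      have : 6 * L ≤ 5 * a + 4 := by omega
      have : ((6 * L : ℕ) : ℝ) ≤ ((5 * a + 4 : ℕ) : ℝ) := by exact_mod_cast this
      push_cast at this
      linarith
    have hLr : (40 : ℝ) ≤ L := by exact_mod_cast hq4
    have f1 : ((n / a : ℕ) : ℝ) ≤ 5 * n / (6 * L - 4) := by
      calc ((n / a : ℕ) : ℝ) ≤ (n : ℝ) / a := Nat.cast_div_le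
        _ ≤ 5 * n / (6 * L - 4) := by
          rw [div_le_div_iff₀ (by exact_mod_cast hapos) (by linarith)]
          have : (0 : ℝ) ≤ n := by positivity
          nlinarith
    have f2 : (n : ℝ) / (2 * L + 3) - 1 ≤ (((n - 1) / (2 * L + 3) : ℕ) : ℝ) := by
      have g1 : n ≤ (2 * L + 3) * ((n - 1) / (2 * L + 3) + 1) := by
        have := Nat.div_add_mod (n - 1) (2 * L + 3)
        have h7 := Nat.mod_lt (n - 1) (show 0 < 2 * L + 3 by omega)
        rw [Nat.mul_add, mul_one]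
        omega
      have g2 : (n : ℝ) ≤ (2 * L + 3) * ((((n - 1) / (2 * L + 3) : ℕ) : ℝ) + 1) := by exact_mod_cast g1
      rw [sub_le_iff_le_add, div_le_iff₀ (by linarith)]
      linarith
    have f3 : (2 : ℝ) ^ b * 2 ^ q ≤ n := by
      have : 2 ^ b * 2 ^ q ≤ n := by
        rw [← pow_add]
        exact (Nat.pow_le_pow_right (by norm_num) hbL).trans hL1
      exact_mod_cast this
    have f4 : (68 : ℝ) * L ≤ 2 ^ q := by
      have : 68 * L ≤ 2 ^ q := by
        have : 68 * L ≤ 680 * (q + 1) ^ 1 := by rw [pow_one]; omega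
        omega
      exact_mod_cast this
    have f5 : (3 : ℝ) / L ≤ 100 / (2 * L + 3) - 260 / (6 * L - 4) := by
      rw [div_sub_div _ _ (by linarith) (by linarith), div_le_div_iff₀ (by linarith) (by nlinarith)]
      nlinarith
    have hb1 : (1 : ℝ) < 2 ^ b := one_lt_pow₀ (by norm_num) (by omega)
    have f6 : (204 : ℝ) * 2 ^ b ≤ 3 / L * n := by
      rw [div_mul_eq_mul_div, le_div_iff₀ (by linarith)]
      nlinarith [mul_le_mul_of_nonneg_left f4 (show (0 : ℝ) ≤ 3 * 2 ^ b by positivity)]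
    have f7 : 3 / (L : ℝ) * n ≤ (100 / (2 * L + 3) - 260 / (6 * L - 4)) * n :=
      mul_le_mul_of_nonneg_right f5 (by positivity)
    have f8 : (52 : ℝ) * (((n / a : ℕ) : ℝ) + 1 + 2 ^ b) < 100 * (((n - 1) / (2 * L + 3) : ℕ) : ℝ) := by
      have k1 : (100 / (2 * (L : ℝ) + 3) - 260 / (6 * L - 4)) * n =
        100 * ((n : ℝ) / (2 * L + 3)) - 52 * (5 * n / (6 * L - 4)) := by ring
      have k2 : (0 : ℝ) < 2 ^ b := by positivity
      nlinarith
    exact_mod_cast f8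

end Pool.Agent.V8H97.AA
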