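import Mathlib
import Pool.Agent.V8H97.AA.A0

/-!
Numbers.
-/

open Finset Filter

namespace Pool.Agent.V8H97.AA

theorem log_tendsto : Tendsto (fun n : ℕ => Nat.log 2 n) atTop atTop := by
  refine tendsto_atTop.2 fun b => eventually_atTop.2 ⟨2 ^ b, fun n hn => ?_⟩
  exact Nat.le_log_of_pow_le one_lt_two hn

theorem num2_log : ∀ᶠ n : ℕ in atTop,
    (2 : ℝ) ^ 186 * ((Nat.log 2 n : ℕ) : ℝ) ^ 80 ≤ 64 ^ (Nat.log 2 n) := by
  have h1 := tendsto_pow_const_div_const_pow_of_one_lt 80 (show (1 : ℝ) < 64 by norm_num)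
  have h2 : ∀ᶠ L : ℕ in atTop, (L : ℝ) ^ 80 / 64 ^ L < 1 / 2 ^ 186 :=
    h1.eventually (gt_mem_nhds (by positivity))
  have h3 : ∀ᶠ L : ℕ in atTop, (2 : ℝ) ^ 186 * (L : ℝ) ^ 80 ≤ 64 ^ L := by
    refine h2.mono fun L hL => ?_
    rw [div_lt_div_iff₀ (by positivity) (by positivity)] at hL
    linarith
  exact log_tendsto.eventually h3

theorem num2_exp : ∀ᶠ n : ℕ in atTop,
    (n : ℝ) ≤ ((((2 ^ (9 * Nat.log 2 n / 10) : ℕ) : ℝ) ^ 2 /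
        (4 * ((6 * Nat.log 2 n / 5 : ℕ) : ℝ) ^ 4)) ^ 2 / (2 * n.choose 2)) := by
  filter_upwards [num2_log, eventually_ge_atTop 2] with n h1 hn
  obtain ⟨L, hL⟩ : ∃ L, L = Nat.log 2 n := ⟨_, rfl⟩
  rw [← hL] at h1 ⊢
  have hL1 : 1 ≤ L := by
    rw [hL]
    exact Nat.le_log_of_pow_le one_lt_two (by simpa using hn)
  have hn2 : n ≤ 2 ^ (L + 1) := by
    rw [hL]
    exact (Nat.lt_pow_succ_log_self one_lt_two n).le
  obtain ⟨M, hM⟩ : ∃ M : ℝ, M = ((2 ^ (9 * L / 10) : ℕ) : ℝ) := ⟨_, rfl⟩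
  obtain ⟨κ, hκ⟩ : ∃ κ : ℝ, κ = ((6 * L / 5 : ℕ) : ℝ) := ⟨_, rfl⟩
  rw [← hM, ← hκ]
  have hM0 : 0 ≤ M := by rw [hM]; positivity
  have hκ0 : 0 < κ := by
    rw [hκ]
    have : 0 < 6 * L / 5 := by omega
    exact_mod_cast this
  have hκL : κ ≤ 2 * L := by
    rw [hκ]
    have : 6 * L / 5 ≤ 2 * L := by omega
    exact_mod_cast this
  have hnr : (n : ℝ) ≤ 2 ^ (L + 1) := by exact_mod_cast hn2
  have hn0 : (2 : ℝ) ≤ n := by exact_mod_cast hn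
  have hM10 : (2 : ℝ) ^ (9 * L) ≤ M ^ 10 * 2 ^ 9 := by
    rw [hM]
    push_cast
    rw [← pow_mul, ← pow_add]
    exact pow_le_pow_right₀ (by norm_num) (by omega)
  have hM40 : (2 : ℝ) ^ (36 * L) ≤ M ^ 40 * 2 ^ 36 := by
    have h2 := pow_le_pow_left₀ (by positivity) hM10 4
    have e1 : ((2 : ℝ) ^ (9 * L)) ^ 4 = 2 ^ (36 * L) := by
      rw [← pow_mul]
      congr 1
      ring
    have e2 : (M ^ 10 * 2 ^ 9) ^ 4 = M ^ 40 * 2 ^ 36 := by ring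
    rwa [e1, e2] at h2
  have hT : (16 * κ ^ 8 * (n : ℝ) ^ 3) ^ 10 ≤ (M ^ 4) ^ 10 := by
    have h3 : κ ^ 80 ≤ (2 * (L : ℝ)) ^ 80 := pow_le_pow_left₀ hκ0.le hκL 80
    have h4 : (n : ℝ) ^ 30 ≤ (2 ^ (L + 1)) ^ 30 := pow_le_pow_left₀ (by linarith) hnr 30
    have h5 : (16 * κ ^ 8 * (n : ℝ) ^ 3) ^ 10 = 2 ^ 40 * (κ ^ 80 * (n : ℝ) ^ 30) := by ring
    have h6 : κ ^ 80 * (n : ℝ) ^ 30 ≤ (2 * (L : ℝ)) ^ 80 * (2 ^ (L + 1)) ^ 30 :=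
      mul_le_mul h3 h4 (by positivity) (by positivity)
    have h7 : (2 : ℝ) ^ 40 * ((2 * (L : ℝ)) ^ 80 * (2 ^ (L + 1)) ^ 30) * 2 ^ 36 =
        (2 ^ 186 * (L : ℝ) ^ 80) * 2 ^ (30 * L) := by
      have e1 : ((2 : ℝ) ^ (L + 1)) ^ 30 = 2 ^ (30 * L) * 2 ^ 30 := by
        rw [← pow_mul, ← pow_add]
        congr 1
        ring
      rw [e1, mul_pow]
      ring
    have h8 : (2 : ℝ) ^ (36 * L) = 64 ^ L * 2 ^ (30 * L) := by
      have e1 : (64 : ℝ) = 2 ^ 6 := by norm_num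
      rw [e1, ← pow_mul, ← pow_add]
      congr 1
      ring
    have h9 : (16 * κ ^ 8 * (n : ℝ) ^ 3) ^ 10 * 2 ^ 36 ≤ (M ^ 4) ^ 10 * 2 ^ 36 := by
      calc (16 * κ ^ 8 * (n : ℝ) ^ 3) ^ 10 * 2 ^ 36
          ≤ (2 : ℝ) ^ 40 * ((2 * (L : ℝ)) ^ 80 * (2 ^ (L + 1)) ^ 30) * 2 ^ 36 := by
            rw [h5]
            gcongr
        _ = (2 ^ 186 * (L : ℝ) ^ 80) * 2 ^ (30 * L) := h7
        _ ≤ 64 ^ L * 2 ^ (30 * L) := by gcongr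
        _ = 2 ^ (36 * L) := h8.symm
        _ ≤ M ^ 40 * 2 ^ 36 := hM40
        _ = (M ^ 4) ^ 10 * 2 ^ 36 := by ring
    exact le_of_mul_le_mul_right h9 (by positivity)
  have hT' : 16 * κ ^ 8 * (n : ℝ) ^ 3 ≤ M ^ 4 :=
    le_of_pow_le_pow_left₀ (by norm_num) (by positivity) hT
  have hc : (n.choose 2 : ℝ) = n * (n - 1) / 2 := Nat.cast_choose_two ℝ n
  have hc0 : (0 : ℝ) < 2 * n.choose 2 := by
    rw [hc]
    nlinarith
  rw [le_div_iff₀ hc0, hc, div_pow, le_div_iff₀ (by positivity)]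
  have h10 : (n : ℝ) * (2 * (n * (n - 1) / 2)) ≤ n ^ 3 := by
    nlinarith
  calc (n : ℝ) * (2 * (n * (n - 1) / 2)) * (4 * κ ^ 4) ^ 2
      ≤ (n : ℝ) ^ 3 * (4 * κ ^ 4) ^ 2 := by gcongr
    _ = 16 * κ ^ 8 * (n : ℝ) ^ 3 := by ring
    _ ≤ M ^ 4 := hT'
    _ = (M ^ 2) ^ 2 := by ring

theorem num2_second (n : ℕ) (hn : 1 ≤ n) :
    2 * (n : ℝ) ^ (2 * Nat.log 2 n + 4) * (1 / 2) ^ (2 * Nat.log 2 n + 4).choose 2 ≤ 1 / n := by
  obtain ⟨L, hL⟩ : ∃ L, L = Nat.log 2 n := ⟨_, rfl⟩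
  rw [← hL]
  have hn2 : n ≤ 2 ^ (L + 1) := by
    rw [hL]
    exact (Nat.lt_pow_succ_log_self one_lt_two n).le
  have hnr : (n : ℝ) ≤ 2 ^ (L + 1) := by exact_mod_cast hn2
  have hn0 : (0 : ℝ) < n := by exact_mod_cast hn
  have hch : (2 * L + 4).choose 2 = (L + 1) * (2 * L + 4) + (L + 2) := by
    rw [Nat.choose_two_right]
    have e1 : (2 * L + 4) * (2 * L + 4 - 1) = 2 * ((L + 1) * (2 * L + 4) + (L + 2)) := by
      have e2 : 2 * L + 4 - 1 = 2 * L + 3 := by omega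
      rw [e2]
      ring
    rw [e1, Nat.mul_div_cancel_left _ (by norm_num)]
  rw [hch]
  have h1 : (n : ℝ) ^ (2 * L + 4) ≤ 2 ^ ((L + 1) * (2 * L + 4)) := by
    rw [pow_mul]
    exact pow_le_pow_left₀ hn0.le hnr _
  calc 2 * (n : ℝ) ^ (2 * L + 4) * (1 / 2) ^ ((L + 1) * (2 * L + 4) + (L + 2))
      ≤ 2 * 2 ^ ((L + 1) * (2 * L + 4)) * (1 / 2) ^ ((L + 1) * (2 * L + 4) + (L + 2)) := by gcongr
    _ = 1 / 2 ^ (L + 1) := by
        rw [one_div_pow, pow_add, pow_succ (2 : ℝ) (L + 1)]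
        field_simp
    _ ≤ 1 / n := one_div_le_one_div_of_le hn0 hnr

/-- P7b: numbers -/
theorem numeric2 : Filter.Tendsto (fun n : ℕ =>
      2 * 2 ^ n * Real.exp (-((((2 ^ (9 * Nat.log 2 n / 10) : ℕ) : ℝ) ^ 2 /
        (4 * ((6 * Nat.log 2 n / 5 : ℕ) : ℝ) ^ 4)) ^ 2 / (2 * n.choose 2))) +
        2 * (n : ℝ) ^ (2 * Nat.log 2 n + 4) * (1 / 2) ^ (2 * Nat.log 2 n + 4).choose 2)
    Filter.atTop (nhds 0) := by
  have hr : (2 : ℝ) * Real.exp (-1) < 1 := by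
    have h1 : (2 : ℝ) < Real.exp 1 := lt_trans (by norm_num) Real.exp_one_gt_d9
    rw [Real.exp_neg, ← div_eq_mul_inv, div_lt_one (Real.exp_pos 1)]
    exact h1
  have hr0 : (0 : ℝ) ≤ 2 * Real.exp (-1) := by positivity
  have hlim : Tendsto (fun n : ℕ => 2 * (2 * Real.exp (-1)) ^ n + 1 / (n : ℝ)) atTop (nhds 0) := by
    have h1 := (tendsto_pow_atTop_nhds_zero_of_lt_one hr0 hr).const_mul 2
    have h2 := h1.add (tendsto_one_div_atTop_nhds_zero_nat (𝕜 := ℝ))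
    simpa using h2
  refine tendsto_of_tendsto_of_tendsto_of_le_of_le' tendsto_const_nhds hlim
    (Eventually.of_forall fun n => by positivity) ?_
  filter_upwards [num2_exp, eventually_ge_atTop 1] with n h1 hn
  refine add_le_add ?_ (num2_second n hn)
  calc _ ≤ 2 * 2 ^ n * Real.exp (-(n : ℝ)) := by
        gcongr
    _ = 2 * (2 * Real.exp (-1)) ^ n := by
        rw [mul_pow, ← Real.exp_nat_mul]
        have e1 : (n : ℝ) * -1 = -(n : ℝ) := by ring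
        rw [e1]
        ring

end Pool.Agent.V8H97.AA
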