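import Mathlib
import Pool.Agent.V8H97.CRG.Half
import Pool.Agent.V8H97.AA.A7
import Pool.Agent.V8H97.AA.P4
import Pool.Agent.V8H97.AA.P5
import Pool.Agent.V8H97.AA.P6
import Pool.Agent.V8H97.AA.P7a
import Pool.Agent.V8H97.AA.P7b

/-!
# Q1 of MP_076b30_co for almost all graphs (not a hand-in: follows from known results)

`ed H p` is the infimum of `g_K(p)` over all coloured regularity graphs `K` in `K(H)`, `edB H N p` the
infimum over those of order at most `N` (definitions in `Pool/Agent/V8H97/CRG/Half.lean`, written as in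
the frozen statement `S07015`). The proportion of the graphs `H` on `n` vertices for which the suprema
over `p` of `edB H N` and `ed H` agree for all `N ≥ φ n` tends to one.
-/

open Pool.Agent.V8H97.CRG.Half Pool.Agent.V8H97.AA

namespace Pool.Agent.V8H97.AA.AlmostAll

/-- **Main theorem.** For almost all graphs `H` the supremum over `p` of the edit distance function
is computed by coloured regularity graphs of order at most `φ (|V(H)|)`. -/
theorem almost_all : ∃ φ : ℕ → ℕ, Filter.Tendsto (fun n : ℕ =>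
      ({H : SimpleGraph (Fin n) | ∀ N ≥ φ n,
        sSup (edB H N '' Set.Icc 0 1) = sSup (ed H '' Set.Icc 0 1)}.ncard : ℝ) /
        (Nat.card (SimpleGraph (Fin n)) : ℝ)) Filter.atTop (nhds 1) := by
  classical
  choose φ hφ using fun n : ℕ => two n (1 / 100) (by norm_num)
  refine ⟨φ, ?_⟩
  obtain ⟨g, hg⟩ : ∃ g : ℕ → ℝ, g = fun n : ℕ =>
      2 * 2 ^ n * Real.exp (-((((2 ^ (9 * Nat.log 2 n / 10) : ℕ) : ℝ) ^ 2 /
        (4 * ((6 * Nat.log 2 n / 5 : ℕ) : ℝ) ^ 4)) ^ 2 / (2 * n.choose 2))) +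
        2 * (n : ℝ) ^ (2 * Nat.log 2 n + 4) * (1 / 2) ^ (2 * Nat.log 2 n + 4).choose 2 := ⟨_, rfl⟩
  have hg0 : Filter.Tendsto g Filter.atTop (nhds 0) := by rw [hg]; exact numeric2
  have htot : ∀ n : ℕ, (Nat.card (SimpleGraph (Fin n)) : ℝ) = 2 ^ n.choose 2 := by
    intro n
    have h := count_graphs (n := n) (fun _ => True)
    rw [Finset.filter_true, Finset.card_univ, Fintype.card_fun, Fintype.card_bool, card_E] at h
    have h2 : {H : SimpleGraph (Fin n) | True}.ncard = Nat.card (SimpleGraph (Fin n)) := by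
      rw [Set.setOf_true, Set.ncard_univ]
    rw [← h2, h]
    push_cast
    rfl
  have hev : ∀ᶠ n : ℕ in Filter.atTop, 1 - g n ≤
      ({H : SimpleGraph (Fin n) | ∀ N ≥ φ n,
        sSup (edB H N '' Set.Icc 0 1) = sSup (ed H '' Set.Icc 0 1)}.ncard : ℝ) /
        (Nat.card (SimpleGraph (Fin n)) : ℝ) := by
    filter_upwards [numeric1] with n hn
    obtain ⟨hn2, hk2, hkm, hNw⟩ := hn
    obtain ⟨L, hL⟩ : ∃ L, L = Nat.log 2 n := ⟨_, rfl⟩
    rw [← hL] at hk2 hkm hNw
    obtain ⟨k, hk⟩ : ∃ k, k = 6 * L / 5 := ⟨_, rfl⟩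
    obtain ⟨m, hm⟩ : ∃ m, m = 2 ^ (9 * L / 10) := ⟨_, rfl⟩
    rw [← hk, ← hm] at hkm
    rw [← hk] at hk2
    rw [← hk, ← hm] at hNw
    have hub := union_bound n k m (2 * L + 4) hn2 hk2 hkm
    have hgn : 2 * 2 ^ n * Real.exp (-(((m : ℝ) ^ 2 / (4 * k ^ 4)) ^ 2 / (2 * n.choose 2))) +
        2 * (n : ℝ) ^ (2 * L + 4) * (1 / 2) ^ (2 * L + 4).choose 2 = g n := by
      rw [hg]
      simp only
      rw [← hL, ← hk, ← hm]
    rw [hgn] at hub
    have hgood : ∀ H : SimpleGraph (Fin n), Typ k m (2 * L + 4) H → ∀ N ≥ φ n,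
        sSup (edB H N '' Set.Icc 0 1) = sSup (ed H '' Set.Icc 0 1) := by
      intro H hH
      refine hφ n H ?_
      have hw1 : 0 < (n - 1) / (2 * L + 3) := by omega
      have hmul : (n - 1) / (2 * L + 3) * (2 * L + 4 - 1) < n := by
        have h1 : 2 * L + 4 - 1 = 2 * L + 3 := by omega
        rw [h1]
        have := Nat.div_mul_le_self (n - 1) (2 * L + 3)
        omega
      refine typ_max H k m (2 * L + 4) (n / k + 1 + m) ((n - 1) / (2 * L + 3)) (by omega) hw1 hmul
        (by positivity) (n / k + 1) ?_ le_rfl hNw hH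
      have := Nat.lt_mul_div_succ n (show 0 < k by omega)
      omega
    have hle : ((2 : ℝ) ^ n.choose 2) ≤
        ({H : SimpleGraph (Fin n) | ∀ N ≥ φ n,
          sSup (edB H N '' Set.Icc 0 1) = sSup (ed H '' Set.Icc 0 1)}.ncard : ℝ) +
        ({H : SimpleGraph (Fin n) | ¬ Typ k m (2 * L + 4) H}.ncard : ℝ) := by
      rw [← htot n, ← Set.ncard_univ]
      have h1 : (Set.univ : Set (SimpleGraph (Fin n))) ⊆
          {H : SimpleGraph (Fin n) | ∀ N ≥ φ n,
            sSup (edB H N '' Set.Icc 0 1) = sSup (ed H '' Set.Icc 0 1)} ∪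
          {H : SimpleGraph (Fin n) | ¬ Typ k m (2 * L + 4) H} := by
        intro H _
        by_cases h : Typ k m (2 * L + 4) H
        · exact Or.inl (hgood H h)
        · exact Or.inr h
      have h2 := (Set.ncard_le_ncard h1 (Set.toFinite _)).trans (Set.ncard_union_le _ _)
      exact_mod_cast h2
    rw [htot n, le_div_iff₀ (by positivity)]
    nlinarith
  have hle1 : ∀ n : ℕ, ({H : SimpleGraph (Fin n) | ∀ N ≥ φ n,
        sSup (edB H N '' Set.Icc 0 1) = sSup (ed H '' Set.Icc 0 1)}.ncard : ℝ) /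
        (Nat.card (SimpleGraph (Fin n)) : ℝ) ≤ 1 := by
    intro n
    rw [htot n, div_le_one (by positivity), ← htot n, ← Set.ncard_univ]
    exact_mod_cast Set.ncard_le_ncard (Set.subset_univ _) (Set.toFinite _)
  refine tendsto_of_tendsto_of_tendsto_of_le_of_le' ?_ tendsto_const_nhds hev
    (Filter.Eventually.of_forall hle1)
  have := hg0.const_sub 1
  rwa [sub_zero] at this

end Pool.Agent.V8H97.AA.AlmostAll
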